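import Mathlib

/-!
# Meadows and finite presentations: definitions

* `Tm C V`  : terms over the meadow signature expanded by constants `C`, with variables in `V`
* `Idt C`   : identities (pairs of terms with variables in `ℕ`)
* `Md C`    : the equations of meadows
* `Prv E`   : provable equality in equational logic from the identities `E`
* `Init E`  : closed terms modulo provable equality (the initial algebra)
* `IsPresentation K C E` : the meadow reduct of the initial algebra of `Md + E` is isomorphic to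
  the zero-totalised field `K_0`
* `HasFinitePresentation K`
-/

set_option autoImplicit false

universe u

namespace Pool.Agent.Lib.MP_fa3e6c_al

/-- Terms over the meadow signature `(+, ·, -, ⁻¹, 0, 1)` expanded by the constants `C`, with
variables from `V`. -/
inductive Tm (C V : Type) : Type
  | var : V → Tm C V
  | cst : C → Tm C V
  | zero : Tm C V
  | one : Tm C V
  | add : Tm C V → Tm C V → Tm C V
  | mul : Tm C V → Tm C V → Tm C V
  | neg : Tm C V → Tm C V
  | inv : Tm C V → Tm C V

namespace Tm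

variable {C V W : Type}

/-- substitution of terms for the variables -/
def subst (σ : V → Tm C W) : Tm C V → Tm C W
  | var x => σ x
  | cst c => cst c
  | zero => zero
  | one => one
  | add s t => add (subst σ s) (subst σ t)
  | mul s t => mul (subst σ s) (subst σ t)
  | neg s => neg (subst σ s)
  | inv s => inv (subst σ s)

/-- a closed term regarded as a term with variables in `ℕ` -/
def lift (s : Tm C Empty) : Tm C ℕ := s.subst Empty.elim

/-- value of a term in an algebra for the expanded signature -/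
def eval {A : Type u} [Zero A] [One A] [Add A] [Mul A] [Neg A] [Inv A] (c : C → A) (v : V → A) :
    Tm C V → A
  | var x => v x
  | cst i => c i
  | zero => 0
  | one => 1
  | add s t => eval c v s + eval c v t
  | mul s t => eval c v s * eval c v t
  | neg s => -eval c v s
  | inv s => (eval c v s)⁻¹

end Tm

/-- identities: pairs of terms with variables in `ℕ` -/
abbrev Idt (C : Type) : Type := Tm C ℕ × Tm C ℕ

open Tm in
/-- The set `Md` of equations: the axioms of commutative rings with `1` together with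
`(x⁻¹)⁻¹ = x` and `x · (x · x⁻¹) = x`. -/
def Md (C : Type) : Set (Idt C) :=
  {(add (add (var 0) (var 1)) (var 2), add (var 0) (add (var 1) (var 2))),
   (add (var 0) (var 1), add (var 1) (var 0)),
   (add (var 0) zero, var 0),
   (add (var 0) (neg (var 0)), zero),
   (mul (mul (var 0) (var 1)) (var 2), mul (var 0) (mul (var 1) (var 2))),
   (mul (var 0) (var 1), mul (var 1) (var 0)),
   (mul one (var 0), var 0),
   (mul (var 0) (add (var 1) (var 2)), add (mul (var 0) (var 1)) (mul (var 0) (var 2))),
   (inv (inv (var 0)), var 0),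
   (mul (var 0) (mul (var 0) (inv (var 0))), var 0)}

/-- Provable equality: equational logic over the identities `E`. -/
inductive Prv {C : Type} (E : Set (Idt C)) : Tm C ℕ → Tm C ℕ → Prop
  | ax {s t : Tm C ℕ} : (s, t) ∈ E → Prv E s t
  | refl (s : Tm C ℕ) : Prv E s s
  | symm {s t : Tm C ℕ} : Prv E s t → Prv E t s
  | trans {s t r : Tm C ℕ} : Prv E s t → Prv E t r → Prv E s r
  | subst {s t : Tm C ℕ} (σ : ℕ → Tm C ℕ) : Prv E s t → Prv E (s.subst σ) (t.subst σ)
  | add {s s' t t' : Tm C ℕ} : Prv E s s' → Prv E t t' → Prv E (Tm.add s t) (Tm.add s' t')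
  | mul {s s' t t' : Tm C ℕ} : Prv E s s' → Prv E t t' → Prv E (Tm.mul s t) (Tm.mul s' t')
  | neg {s s' : Tm C ℕ} : Prv E s s' → Prv E (Tm.neg s) (Tm.neg s')
  | inv {s s' : Tm C ℕ} : Prv E s s' → Prv E (Tm.inv s) (Tm.inv s')

/-- provable equality of closed terms -/
def initSetoid {C : Type} (E : Set (Idt C)) : Setoid (Tm C Empty) where
  r s t := Prv E s.lift t.lift
  iseqv := ⟨fun _ => Prv.refl _, Prv.symm, Prv.trans⟩

/-- The initial algebra: closed terms modulo provable equality. -/
def Init {C : Type} (E : Set (Idt C)) : Type := Quotient (initSetoid E)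

namespace Init

variable {C : Type} {E : Set (Idt C)}

/-- class of a closed term -/
def mk (E : Set (Idt C)) (s : Tm C Empty) : Init E := Quotient.mk (initSetoid E) s

instance : Zero (Init E) := ⟨mk E Tm.zero⟩
instance : One (Init E) := ⟨mk E Tm.one⟩
instance : Add (Init E) :=
  ⟨Quotient.map₂ Tm.add fun _ _ h _ _ h' => Prv.add h h'⟩
instance : Mul (Init E) :=
  ⟨Quotient.map₂ Tm.mul fun _ _ h _ _ h' => Prv.mul h h'⟩
instance : Neg (Init E) :=
  ⟨Quotient.map Tm.neg fun _ _ h => Prv.neg h⟩
instance : Inv (Init E) :=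
  ⟨Quotient.map Tm.inv fun _ _ h => Prv.inv h⟩

end Init

/-- `(C, E)` is a presentation of the meadow `K_0` (`K` with `0⁻¹ = 0`): the meadow reduct of the
initial algebra of `Md + E` is isomorphic to `K_0`. -/
def IsPresentation (K : Type u) [Field K] (C : Type) (E : Set (Idt C)) : Prop :=
  ∃ φ : Init (Md C ∪ E) ≃ K, φ 0 = 0 ∧ φ 1 = 1 ∧ (∀ a b, φ (a + b) = φ a + φ b) ∧
    (∀ a b, φ (a * b) = φ a * φ b) ∧ (∀ a, φ (-a) = -φ a) ∧ (∀ a, φ a⁻¹ = (φ a)⁻¹)

/-- `K_0` has a finite presentation. -/
def HasFinitePresentation (K : Type u) [Field K] : Prop :=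
  ∃ (C : Type) (E : Set (Idt C)), Finite C ∧ E.Finite ∧ IsPresentation K C E

/-! ### The quadratic form -/

/-- the ternary form `⟨1, -p, -u⟩` -/
def hF {F : Type u} [CommRing F] (p u : F) (z : Fin 3 → F) : F :=
  z 0 ^ 2 - p * z 1 ^ 2 - u * z 2 ^ 2

/-- real part of `h(z) - t h(w)`, `z = (x0 + i x1, x2 + i x3, x4 + i x5)`,
`w = (x6 + i x7, x8 + i x9, x10 + i x11)` -/
def AA {F : Type u} [CommRing F] (p u t : F) (x : ℕ → F) : F :=
  (x 0 ^ 2 - x 1 ^ 2 - p * (x 2 ^ 2 - x 3 ^ 2) - u * (x 4 ^ 2 - x 5 ^ 2)) -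
    t * (x 6 ^ 2 - x 7 ^ 2 - p * (x 8 ^ 2 - x 9 ^ 2) - u * (x 10 ^ 2 - x 11 ^ 2))

/-- half of the imaginary part of `h(z) - t h(w)` -/
def BB {F : Type u} [CommRing F] (p u t : F) (x : ℕ → F) : F :=
  (x 0 * x 1 - p * (x 2 * x 3) - u * (x 4 * x 5)) -
    t * (x 6 * x 7 - p * (x 8 * x 9) - u * (x 10 * x 11))

/-- the conditions imposed by the finite presentation, in an arbitrary field `A` with constants
`c 0, ..., c n` -/
structure Good {n : ℕ} (G : Finset (MvPolynomial (Fin (n + 1)) ℤ)) (p u : ℕ) (A : Type u) [Field A]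
    (c : Fin (n + 1) → A) : Prop where
  sq : ∀ x : A, (x ^ 2 - (p : A)) * (x ^ 2 - (u : A)) * (x ^ 2 - (p : A) * (u : A)) ≠ 0
  rel : ∀ g ∈ G, MvPolynomial.aeval c g = 0
  form : ∀ x : ℕ → A, AA (p : A) (u : A) (c 0) x = 0 → BB (p : A) (u : A) (c 0) x = 0 →
    ∀ i < 12, x i = 0

/-- validity of a set of identities in a field with constants -/
def Sat {C : Type} (E : Set (Idt C)) (A : Type u) [Field A] (c : C → A) : Prop :=
  ∀ e ∈ E, ∀ v : ℕ → A, e.1.eval c v = e.2.eval c v

/-- every element of `A` is the value of a closed term -/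
def Gen {C : Type} (A : Type u) [Field A] (c : C → A) : Prop :=
  ∀ x : A, ∃ s : Tm C Empty, s.eval c (fun e => e.elim) = x

end Pool.Agent.Lib.MP_fa3e6c_al
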