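import Mathlib
import Pool.Agent.Lib.MP_fa3e6c_al.Defs

/-!
# `⟨1, -p, -u⟩` is anisotropic over `ℚ_p`

Proof. If `x, z ∈ ℚ_p` are not both zero then `|x² - u z²| = max(|x|,|z|)²` (scale to `ℤ_p` with one
of them a unit; reduction mod `p` would make `u` a square, `u ≢ 0` since `0` is a square), whereas
`|p y²| = p⁻¹ |y|²`: the parities of the valuations differ. For `not_sq_p`: `x² = p` and
`x² = p u` are excluded by parity, `x² = u` by reduction. `exists_i`: `p = 1 mod 4`, so `-1` is a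
square mod `p` (`ZMod.exists_sq_eq_neg_one_iff`), Hensel.
-/

set_option autoImplicit false

namespace Pool.Agent.Lib.MP_fa3e6c_al

private theorem norm_u (p u : ℕ) [Fact p.Prime] (hu : ¬ IsSquare (u : ZMod p)) :
    ‖(u : ℚ_[p])‖ = 1 := by
  have h1 : ‖(u : ℚ_[p])‖ ≤ 1 := by
    have := Padic.norm_int_le_one (p := p) (u : ℤ)
    simpa using this
  refine le_antisymm h1 ?_
  by_contra h2
  push Not at h2
  rw [Padic.norm_natCast_lt_one_iff] at h2
  apply hu
  rw [(ZMod.natCast_eq_zero_iff u p).2 h2]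
  exact ⟨0, by simp⟩

private theorem red (p u : ℕ) [Fact p.Prime] (hu : ¬ IsSquare (u : ZMod p)) (t : ℤ_[p]) :
    ‖((t : ℚ_[p])) ^ 2 - (u : ℚ_[p])‖ = 1 := by
  have h0 : ((t : ℚ_[p])) ^ 2 - (u : ℚ_[p]) = ((t ^ 2 - (u : ℤ_[p]) : ℤ_[p]) : ℚ_[p]) := by
    push_cast
    rfl
  rw [h0, ← PadicInt.norm_def]
  refine le_antisymm (PadicInt.norm_le_one _) ?_
  by_contra h2
  push Not at h2
  have h3 : t ^ 2 - (u : ℤ_[p]) ∈ RingHom.ker (PadicInt.toZMod : ℤ_[p] →+* ZMod p) := by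
    rw [PadicInt.ker_toZMod, IsLocalRing.mem_maximalIdeal, PadicInt.mem_nonunits]
    exact h2
  rw [RingHom.mem_ker, map_sub, map_pow, map_natCast, sub_eq_zero] at h3
  exact hu ⟨PadicInt.toZMod t, by rw [← h3, sq]⟩

private theorem norm_form (p u : ℕ) [Fact p.Prime] (hu : ¬ IsSquare (u : ZMod p)) (a b : ℚ_[p]) :
    ‖a ^ 2 - (u : ℚ_[p]) * b ^ 2‖ = (max ‖a‖ ‖b‖) ^ 2 := by
  rcases le_or_gt ‖a‖ ‖b‖ with h | h
  · rw [max_eq_right h]
    by_cases hb : b = 0
    · subst hb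
      have ha : a = 0 := by simpa using h
      subst ha
      simp
    · have hb' : 0 < ‖b‖ := norm_pos_iff.2 hb
      have ht : ‖a / b‖ ≤ 1 := by rw [norm_div, div_le_one hb']; exact h
      have h1 := red p u hu ⟨a / b, ht⟩
      have h2 : a ^ 2 - (u : ℚ_[p]) * b ^ 2 = b ^ 2 * ((a / b) ^ 2 - (u : ℚ_[p])) := by
        field_simp
      rw [h2, norm_mul, norm_pow]
      have h3 : ‖(a / b) ^ 2 - (u : ℚ_[p])‖ = 1 := h1
      rw [h3, mul_one]
  · rw [max_eq_left h.le]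
    have h1 : ‖(u : ℚ_[p]) * b ^ 2‖ < ‖a ^ 2‖ := by
      rw [norm_mul, norm_pow, norm_pow, norm_u p u hu, one_mul]
      exact pow_lt_pow_left₀ h (norm_nonneg _) (by norm_num)
    rw [sub_eq_add_neg, Padic.add_eq_max_of_ne (by rw [norm_neg]; exact h1.ne'), norm_neg,
      max_eq_left h1.le, norm_pow]

private theorem parity (p : ℕ) [Fact p.Prime] (a b : ℚ_[p]) (hb : b ≠ 0)
    (h : ‖a‖ ^ 2 = ‖(p : ℚ_[p])‖ * ‖b‖ ^ 2) : False := by
  have hp1 : (1 : ℝ) < p := by exact_mod_cast (Fact.out : p.Prime).one_lt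
  have ha : a ≠ 0 := by
    rintro rfl
    rw [norm_zero, Padic.norm_p] at h
    have : 0 < ((p : ℝ)⁻¹) * ‖b‖ ^ 2 := by positivity
    rw [← h] at this
    norm_num at this
  rw [Padic.norm_eq_zpow_neg_valuation ha, Padic.norm_eq_zpow_neg_valuation hb, Padic.norm_p,
    ← zpow_natCast, ← zpow_natCast, ← zpow_mul, ← zpow_mul, ← zpow_neg_one,
    ← zpow_add₀ (by positivity)] at h
  have := zpow_right_injective₀ (by positivity) hp1.ne' h
  push_cast at this
  omega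

theorem hF_anisotropic (p u : ℕ) [Fact p.Prime] (hu : ¬ IsSquare (u : ZMod p))
    (z : Fin 3 → ℚ_[p]) (h : hF (p : ℚ_[p]) (u : ℚ_[p]) z = 0) : z = 0 := by
  have h1 : z 0 ^ 2 - (u : ℚ_[p]) * z 2 ^ 2 = (p : ℚ_[p]) * z 1 ^ 2 := by
    unfold hF at h
    linear_combination h
  have h2 := congrArg norm h1
  rw [norm_form p u hu, norm_mul, norm_pow] at h2
  have hz1 : z 1 = 0 := by
    by_contra hz1
    rcases le_total ‖z 0‖ ‖z 2‖ with h3 | h3
    · rw [max_eq_right h3] at h2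
      exact parity p _ _ hz1 h2
    · rw [max_eq_left h3] at h2
      exact parity p _ _ hz1 h2
  rw [hz1, norm_zero] at h2
  have h3 : max ‖z 0‖ ‖z 2‖ = 0 := by
    have : (max ‖z 0‖ ‖z 2‖) ^ 2 = 0 := by rw [h2]; ring
    exact pow_eq_zero_iff (by norm_num) |>.1 this
  have hz0 : z 0 = 0 := norm_le_zero_iff.1 ((le_max_left _ _).trans h3.le)
  have hz2 : z 2 = 0 := norm_le_zero_iff.1 ((le_max_right _ _).trans h3.le)
  funext i
  fin_cases i
  · exact hz0
  · exact hz1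
  · exact hz2

theorem not_sq_p (p u : ℕ) [Fact p.Prime] (hu : ¬ IsSquare (u : ZMod p)) (x : ℚ_[p]) :
    x ^ 2 ≠ (p : ℚ_[p]) ∧ x ^ 2 ≠ (u : ℚ_[p]) ∧ x ^ 2 ≠ (p : ℚ_[p]) * (u : ℚ_[p]) := by
  refine ⟨fun h => ?_, fun h => ?_, fun h => ?_⟩
  · refine parity p x 1 one_ne_zero ?_
    rw [← norm_pow, h, norm_one]
    simp
  · have h1 := norm_form p u hu x 1
    rw [h] at h1
    simp only [one_pow, mul_one, sub_self, norm_zero, norm_one] at h1
    have : (0 : ℝ) < (max ‖x‖ 1) ^ 2 := by positivity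
    rw [← h1] at this
    exact lt_irrefl _ this
  · refine parity p x 1 one_ne_zero ?_
    rw [← norm_pow, h, norm_one, norm_mul, norm_u p u hu]
    simp

/-- `-1` is a square in `ℚ_p` -/
theorem exists_i (p : ℕ) [Fact p.Prime] (hp8 : p % 8 = 1) : ∃ j : ℚ_[p], j ^ 2 = -1 := by
  have hp2 : p ≠ 2 := by
    rintro rfl
    norm_num at hp8
  obtain ⟨r, hr⟩ := ZMod.exists_sq_eq_neg_one_iff.2 (show p % 4 ≠ 3 by omega)
  obtain ⟨a, ha⟩ : ∃ a : ℤ_[p], PadicInt.toZMod a = r := ⟨(r.val : ℤ_[p]), by simp⟩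
  have hmem : a ^ 2 + 1 ∈ RingHom.ker (PadicInt.toZMod : ℤ_[p] →+* ZMod p) := by
    rw [RingHom.mem_ker, map_add, map_pow, ha, map_one, sq, ← hr]
    ring
  rw [PadicInt.ker_toZMod, IsLocalRing.mem_maximalIdeal, PadicInt.mem_nonunits] at hmem
  have hunit : ‖2 * a‖ = 1 := by
    refine le_antisymm (PadicInt.norm_le_one _) ?_
    by_contra h2
    push Not at h2
    have h3 : 2 * a ∈ RingHom.ker (PadicInt.toZMod : ℤ_[p] →+* ZMod p) := by
      rw [PadicInt.ker_toZMod, IsLocalRing.mem_maximalIdeal, PadicInt.mem_nonunits]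
      exact h2
    rw [RingHom.mem_ker, map_mul, ha, mul_eq_zero] at h3
    rcases h3 with h3 | h3
    · have : (2 : ZMod p) = 0 := by rwa [map_ofNat] at h3
      have h4 : ((2 : ℕ) : ZMod p) = 0 := by exact_mod_cast this
      rw [ZMod.natCast_eq_zero_iff] at h4
      exact hp2 ((Nat.prime_dvd_prime_iff_eq Fact.out Nat.prime_two).1 h4)
    · rw [h3] at hr
      have : (1 : ZMod p) = 0 := by
        have : (-1 : ZMod p) = 0 := by rw [hr]; ring
        linear_combination -this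
      exact one_ne_zero this
  obtain ⟨z, hz, -⟩ := hensels_lemma (p := p) (F := (Polynomial.X ^ 2 + 1 : Polynomial ℤ_[p]))
    (a := a) (by
      have h1 : Polynomial.aeval a (Polynomial.X ^ 2 + 1 : Polynomial ℤ_[p]) = a ^ 2 + 1 := by simp
      have h2 : Polynomial.aeval a (Polynomial.derivative (Polynomial.X ^ 2 + 1 : Polynomial ℤ_[p])) =
          2 * a := by
        simp only [Polynomial.derivative_add, Polynomial.derivative_X_pow, Polynomial.derivative_one,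
          add_zero, map_mul, map_pow, Polynomial.aeval_X]
        simp
      rw [h1, h2, hunit]
      simpa using hmem)
  refine ⟨(z : ℚ_[p]), ?_⟩
  have h1 : z ^ 2 + 1 = 0 := by simpa using hz
  have h2 : ((z ^ 2 + 1 : ℤ_[p]) : ℚ_[p]) = 0 := by rw [h1]; simp
  push_cast at h2
  linear_combination h2

end Pool.Agent.Lib.MP_fa3e6c_al
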