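import Mathlib
import Pool.Agent.Lib.MP_fa3e6c_al.AnQp

/-!
# The conditions hold in subfields of `ℚ_p((X))`

Proof of `aniso_laurent`. Suppose some of the six entries is nonzero; divide all by the entry of
least order: all entries lie in `F⟦X⟧` and one of them is `1` (or: multiply by a power of `X`).
Reducing mod `X`: `h(z(0)) = 0`, so `z(0) = 0`, `z = X z₁`, `X² h(z₁) = X h(w)`, `h(w) = X h(z₁)`, so
`w(0) = 0`: contradiction. (Any infinite descent on the minimal order of the entries will do.)
`nonsq_laurent`: `x² = a ≠ 0` forces order `0`, take constant coefficients.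
Proof of `good_of_embed`. Let `j² = -1` in `ℚ_p`. For `x : ℕ → K` with `AA = BB = 0` let
`z = (ι x0 + j ι x1, ...)`, `w = (ι x6 + j ι x7, ...)`; then `h z - X h w = ι AA + 2 j ι BB = 0`, so
`z = w = 0`; the same with `-j`, so all `ι (x i) = 0`.
-/

set_option autoImplicit false

universe u

namespace Pool.Agent.Lib.MP_fa3e6c_al

private theorem hF_map {R S : Type} [CommRing R] [CommRing S] (f : R →+* S) (p u : R)
    (z : Fin 3 → R) : hF (f p) (f u) (fun i => f (z i)) = f (hF p u z) := by
  simp [hF]

private theorem aniso_ps {F : Type} [Field F] (p u : F)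
    (han : ∀ z : Fin 3 → F, hF p u z = 0 → z = 0) (n : ℕ) : ∀ z w : Fin 3 → PowerSeries F,
    hF (PowerSeries.C p) (PowerSeries.C u) z =
      PowerSeries.X * hF (PowerSeries.C p) (PowerSeries.C u) w →
    ∀ i, PowerSeries.coeff n (z i) = 0 ∧ PowerSeries.coeff n (w i) = 0 := by
  have hC : ∀ v : Fin 3 → PowerSeries F,
      PowerSeries.constantCoeff (hF (PowerSeries.C p) (PowerSeries.C u) v) = 0 →
      ∀ i, ∃ v1 : PowerSeries F, v i = PowerSeries.X * v1 := by
    intro v hv i
    have h1 : hF p u (fun i => PowerSeries.constantCoeff (v i)) = 0 := by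
      rw [← hv]
      simp [hF]
    have h2 := congrFun (han _ h1) i
    exact PowerSeries.X_dvd_iff.2 h2
  have hX : (PowerSeries.X : PowerSeries F) ≠ 0 := PowerSeries.X_ne_zero
  have key : ∀ z w : Fin 3 → PowerSeries F,
      hF (PowerSeries.C p) (PowerSeries.C u) z =
        PowerSeries.X * hF (PowerSeries.C p) (PowerSeries.C u) w →
      ∃ z1 w1 : Fin 3 → PowerSeries F, (∀ i, z i = PowerSeries.X * z1 i) ∧
        (∀ i, w i = PowerSeries.X * w1 i) ∧
        hF (PowerSeries.C p) (PowerSeries.C u) z1 =
          PowerSeries.X * hF (PowerSeries.C p) (PowerSeries.C u) w1 := by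
    intro z w h
    choose z1 hz1 using hC z (by rw [h]; simp)
    have h2 : hF (PowerSeries.C p) (PowerSeries.C u) w =
        PowerSeries.X * hF (PowerSeries.C p) (PowerSeries.C u) z1 := by
      apply mul_left_cancel₀ hX
      rw [← h]
      simp only [hF, hz1]
      ring
    choose w1 hw1 using hC w (by rw [h2]; simp)
    refine ⟨z1, w1, hz1, hw1, ?_⟩
    apply mul_left_cancel₀ hX
    rw [← h2]
    simp only [hF, hw1]
    ring
  induction n with
  | zero =>
    intro z w h i
    obtain ⟨z1, w1, hz, hw, -⟩ := key z w h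
    rw [hz, hw]
    simp
  | succ n ih =>
    intro z w h i
    obtain ⟨z1, w1, hz, hw, h1⟩ := key z w h
    rw [hz, hw, mul_comm, PowerSeries.coeff_succ_mul_X, mul_comm, PowerSeries.coeff_succ_mul_X]
    exact ih z1 w1 h1 i

/-- `h(z) = X h(w)` has only the zero solution over `F((X))` if `h` is anisotropic over `F` -/
theorem aniso_laurent {F : Type} [Field F] (p u : F)
    (han : ∀ z : Fin 3 → F, hF p u z = 0 → z = 0) (z w : Fin 3 → LaurentSeries F)
    (h : hF (HahnSeries.C p) (HahnSeries.C u) z =
      HahnSeries.single 1 1 * hF (HahnSeries.C p) (HahnSeries.C u) w) : z = 0 ∧ w = 0 := by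
  obtain ⟨b, hb⟩ := IsLocalization.exist_integer_multiples_of_finite
    (nonZeroDivisors (PowerSeries F)) (S := LaurentSeries F) (Sum.elim z w)
  have hb0 : (b : PowerSeries F) ≠ 0 := nonZeroDivisors.coe_ne_zero b
  choose f hf using hb
  have hinj : Function.Injective (algebraMap (PowerSeries F) (LaurentSeries F)) :=
    IsFractionRing.injective _ _
  have hCp : ∀ a : F, algebraMap (PowerSeries F) (LaurentSeries F) (PowerSeries.C a) =
      HahnSeries.C a := fun a => HahnSeries.ofPowerSeries_C a
  have hXX : algebraMap (PowerSeries F) (LaurentSeries F) PowerSeries.X = HahnSeries.single 1 1 :=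
    HahnSeries.ofPowerSeries_X
  have hz : ∀ i, algebraMap (PowerSeries F) (LaurentSeries F) (f (Sum.inl i)) =
      algebraMap (PowerSeries F) (LaurentSeries F) b * z i := by
    intro i
    rw [hf, Algebra.smul_def]
    rfl
  have hw : ∀ i, algebraMap (PowerSeries F) (LaurentSeries F) (f (Sum.inr i)) =
      algebraMap (PowerSeries F) (LaurentSeries F) b * w i := by
    intro i
    rw [hf, Algebra.smul_def]
    rfl
  have hps : hF (PowerSeries.C p) (PowerSeries.C u) (fun i => f (Sum.inl i)) =
      PowerSeries.X * hF (PowerSeries.C p) (PowerSeries.C u) (fun i => f (Sum.inr i)) := by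
    apply hinj
    rw [map_mul, ← hF_map, ← hF_map, hCp, hCp, hXX]
    simp only [hz, hw]
    have h1 : ∀ v : Fin 3 → LaurentSeries F, ∀ c : LaurentSeries F,
        hF (HahnSeries.C p) (HahnSeries.C u) (fun i => c * v i) =
          c ^ 2 * hF (HahnSeries.C p) (HahnSeries.C u) v := by
      intro v c
      simp only [hF]
      ring
    rw [h1, h1, h]
    ring
  have hzero := fun n => aniso_ps p u han n _ _ hps
  have hb1 : algebraMap (PowerSeries F) (LaurentSeries F) b ≠ 0 := by
    rw [Ne, map_eq_zero_iff _ hinj]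
    exact hb0
  constructor
  · funext i
    have h1 : f (Sum.inl i) = 0 := by
      ext n
      rw [(hzero n i).1]
      simp
    have h2 := hz i
    rw [h1, map_zero] at h2
    exact (mul_eq_zero.1 h2.symm).resolve_left hb1
  · funext i
    have h1 : f (Sum.inr i) = 0 := by
      ext n
      rw [(hzero n i).2]
      simp
    have h2 := hw i
    rw [h1, map_zero] at h2
    exact (mul_eq_zero.1 h2.symm).resolve_left hb1

/-- nonsquares stay nonsquares over `F((X))` -/
theorem nonsq_laurent {F : Type} [Field F] (a : F) (ha : ∀ x : F, x ^ 2 ≠ a)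
    (x : LaurentSeries F) : x ^ 2 ≠ HahnSeries.C a := by
  intro h
  have hCa : algebraMap (PowerSeries F) (LaurentSeries F) (PowerSeries.C a) =
      HahnSeries.C a := HahnSeries.ofPowerSeries_C a
  obtain ⟨y, hy⟩ := IsIntegrallyClosed.exists_algebraMap_eq_of_isIntegral_pow (R := PowerSeries F)
    (K := LaurentSeries F) (x := x) (n := 2) (by norm_num) (by
      rw [h, ← hCa]
      exact isIntegral_algebraMap)
  have h2 : y ^ 2 = PowerSeries.C a := by
    apply IsFractionRing.injective (PowerSeries F) (LaurentSeries F)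
    rw [map_pow, hy, h, hCa]
  apply ha (PowerSeries.constantCoeff y)
  rw [← map_pow, h2]
  simp

/-- the conditions of `Good` (except the relations) hold in a field embedded in `ℚ_p((X))` with
`t ↦ X` -/
theorem good_of_embed (p u : ℕ) [Fact p.Prime] (hp8 : p % 8 = 1) (hu : ¬ IsSquare (u : ZMod p))
    (K : Type u) [Field K] (t : K) (ι : K →+* LaurentSeries ℚ_[p])
    (ht : ι t = HahnSeries.single 1 1) :
    (∀ x : K, (x ^ 2 - (p : K)) * (x ^ 2 - (u : K)) * (x ^ 2 - (p : K) * (u : K)) ≠ 0) ∧
    (∀ x : ℕ → K, AA (p : K) (u : K) t x = 0 → BB (p : K) (u : K) t x = 0 → ∀ i < 12, x i = 0) := by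
  have hnat : ∀ n : ℕ, (n : LaurentSeries ℚ_[p]) = HahnSeries.C (n : ℚ_[p]) := fun n => by
    rw [map_natCast]
  have hι : ∀ n : ℕ, ι (n : K) = HahnSeries.C (n : ℚ_[p]) := fun n => by
    rw [map_natCast, map_natCast]
  constructor
  · intro x hx
    rw [mul_eq_zero, mul_eq_zero] at hx
    rcases hx with (hx | hx) | hx
    · refine nonsq_laurent (p : ℚ_[p]) (fun y => (not_sq_p p u hu y).1) (ι x) ?_
      rw [← map_pow, sub_eq_zero.1 hx, hι]
    · refine nonsq_laurent (u : ℚ_[p]) (fun y => (not_sq_p p u hu y).2.1) (ι x) ?_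
      rw [← map_pow, sub_eq_zero.1 hx, hι]
    · refine nonsq_laurent ((p : ℚ_[p]) * (u : ℚ_[p])) (fun y => (not_sq_p p u hu y).2.2) (ι x) ?_
      rw [← map_pow, sub_eq_zero.1 hx, map_mul, hι, hι, map_mul]
  · intro x hA hB
    have hA' := congrArg ι hA
    have hB' := congrArg ι hB
    simp only [AA, BB, map_sub, map_mul, map_pow, hι, ht, map_zero] at hA' hB'
    have key : ∀ j : ℚ_[p], j ^ 2 = -1 → ∀ k, k < 6 →
        ι (x (2 * k)) + HahnSeries.C j * ι (x (2 * k + 1)) = 0 := by
      intro j hj
      have hj' : (HahnSeries.C j : LaurentSeries ℚ_[p]) ^ 2 = -1 := by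
        rw [← map_pow, hj, map_neg, map_one]
      obtain ⟨hz, hw⟩ := aniso_laurent (p : ℚ_[p]) (u : ℚ_[p])
        (fun z h => hF_anisotropic p u hu z h)
        ![ι (x 0) + HahnSeries.C j * ι (x 1), ι (x 2) + HahnSeries.C j * ι (x 3),
          ι (x 4) + HahnSeries.C j * ι (x 5)]
        ![ι (x 6) + HahnSeries.C j * ι (x 7), ι (x 8) + HahnSeries.C j * ι (x 9),
          ι (x 10) + HahnSeries.C j * ι (x 11)] (by
          simp only [hF, Matrix.cons_val_zero, Matrix.cons_val_one, Matrix.cons_val]
          generalize (HahnSeries.C (p : ℚ_[p]) : LaurentSeries ℚ_[p]) = P at *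
          generalize (HahnSeries.C (u : ℚ_[p]) : LaurentSeries ℚ_[p]) = U at *
          generalize (HahnSeries.single 1 1 : LaurentSeries ℚ_[p]) = X at *
          generalize (HahnSeries.C j : LaurentSeries ℚ_[p]) = J at *
          linear_combination hA' + 2 * J * hB' +
            (ι (x 1) ^ 2 - P * ι (x 3) ^ 2 - U * ι (x 5) ^ 2 -
              X * (ι (x 7) ^ 2 - P * ι (x 9) ^ 2 - U * ι (x 11) ^ 2)) * hj')
      intro k hk
      interval_cases k
      · simpa using congrFun hz 0
      · simpa using congrFun hz 1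
      · simpa using congrFun hz 2
      · simpa using congrFun hw 0
      · simpa using congrFun hw 1
      · simpa using congrFun hw 2
    obtain ⟨j, hj⟩ := exists_i p hp8
    have hj0 : j ≠ 0 := by
      rintro rfl
      norm_num at hj
    have hj1 : (HahnSeries.C j : LaurentSeries ℚ_[p]) ≠ 0 := by
      rw [Ne, map_eq_zero_iff _ HahnSeries.C_injective]
      exact hj0
    have h2 : (2 : LaurentSeries ℚ_[p]) ≠ 0 := by
      have : (2 : LaurentSeries ℚ_[p]) = HahnSeries.C (2 : ℚ_[p]) := by rw [map_ofNat]
      rw [this, Ne, map_eq_zero_iff _ HahnSeries.C_injective]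
      exact two_ne_zero
    intro i hi
    have hk : i / 2 < 6 := by omega
    have e1 := key j hj (i / 2) hk
    have e2 := key (-j) (by rw [neg_sq]; exact hj) (i / 2) hk
    rw [map_neg] at e2
    have e3 : ι (x (2 * (i / 2))) = 0 := by
      have : (2 : LaurentSeries ℚ_[p]) * ι (x (2 * (i / 2))) = 0 := by linear_combination e1 + e2
      exact (mul_eq_zero.1 this).resolve_left h2
    have e4 : ι (x (2 * (i / 2) + 1)) = 0 := by
      have : HahnSeries.C j * ι (x (2 * (i / 2) + 1)) = 0 := by linear_combination e1 - e3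
      exact (mul_eq_zero.1 this).resolve_left hj1
    rcases Nat.even_or_odd i with h | h
    · have : 2 * (i / 2) = i := by obtain ⟨m, hm⟩ := h; omega
      rw [this] at e3
      exact (map_eq_zero ι).1 e3
    · have : 2 * (i / 2) + 1 = i := by obtain ⟨m, hm⟩ := h; omega
      rw [this] at e4
      exact (map_eq_zero ι).1 e4

end Pool.Agent.Lib.MP_fa3e6c_al
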