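import Mathlib

/-!
# Hensel's lemma for polynomials over `ℚ[T]` in `F⟦X⟧`

Proof. `jps F r` maps `P(T)` to `P(r + X)`, with constant coefficient `P(r)`. The image `G̃` of `G`
in `F⟦X⟧[Y]` has leading coefficient a unit; divide by it to get a monic polynomial and apply
`HenselianRing` for the ideal `(X)` (instances `IsAdicComplete (Ideal.span {X}) F⟦X⟧`, file
RingTheory/AdicCompletion/Completeness.lean, and `IsAdicComplete.henselianRing`).
-/

set_option autoImplicit false

universe u

namespace Pool.Agent.Lib.MP_fa3e6c_al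

open Polynomial

/-- `ℚ[T] → F[[X]]`, `T ↦ r + X` -/
noncomputable def jps (F : Type) [Field F] [Algebra ℚ F] (r : ℚ) : ℚ[X] →+* PowerSeries F :=
  Polynomial.eval₂RingHom (PowerSeries.C.comp (algebraMap ℚ F))
    (PowerSeries.C (algebraMap ℚ F r) + PowerSeries.X)

private lemma cc_jps (F : Type) [Field F] [Algebra ℚ F] (r : ℚ) :
    (PowerSeries.constantCoeff (R := F)).comp (jps F r) =
      (algebraMap ℚ F).comp (evalRingHom r) := by
  apply Polynomial.ringHom_ext
  · intro a
    simp [jps]
  · simp [jps]

/-- Hensel: a polynomial `G ∈ ℚ[T][Y]` whose specialisation at `T = r` has a simple root `y0` in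
`F` and with leading coefficient not vanishing at `r` has a root in `F[[X]]` -/
theorem hensel_ps (F : Type) [Field F] [Algebra ℚ F] (r : ℚ) (G : ℚ[X][X])
    (hlc : (G.leadingCoeff).eval r ≠ 0) (y0 : F)
    (h0 : aeval y0 (G.map (evalRingHom r)) = 0)
    (h1 : aeval y0 (derivative (G.map (evalRingHom r))) ≠ 0) :
    ∃ y : PowerSeries F, eval₂ (jps F r) y G = 0 := by
  have hcc : ∀ P : ℚ[X], PowerSeries.constantCoeff (jps F r P) = algebraMap ℚ F (P.eval r) := by
    intro P
    exact congrFun (congrArg DFunLike.coe (cc_jps F r)) P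
  have hlu : IsUnit (jps F r G.leadingCoeff) := by
    rw [PowerSeries.isUnit_iff_constantCoeff, hcc, isUnit_iff_ne_zero]
    exact (_root_.map_ne_zero _).mpr hlc
  obtain ⟨a, ha⟩ := hlu
  set Gt : (PowerSeries F)[X] := G.map (jps F r) with hGt
  have hlc' : Gt.leadingCoeff = (a : PowerSeries F) := by
    rw [hGt, Polynomial.leadingCoeff_map_of_leadingCoeff_ne_zero, ha]
    rw [← ha]
    exact a.ne_zero
  set f : (PowerSeries F)[X] := C ((a⁻¹ : (PowerSeries F)ˣ) : PowerSeries F) * Gt with hf
  have hmon : f.Monic := by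
    rw [hf]
    apply Polynomial.monic_C_mul_of_mul_leadingCoeff_eq_one
    rw [hlc', Units.inv_mul]
  -- evaluation at the constant
  have hev : ∀ Q : ℚ[X][X], PowerSeries.constantCoeff ((Q.map (jps F r)).eval (PowerSeries.C y0)) =
      aeval y0 (Q.map (evalRingHom r)) := by
    intro Q
    rw [Polynomial.eval_map, Polynomial.hom_eval₂, cc_jps, PowerSeries.constantCoeff_C,
      Polynomial.aeval_def, Polynomial.eval₂_map]
  have hf0 : f.eval (PowerSeries.C y0) ∈ (Ideal.span {PowerSeries.X} : Ideal (PowerSeries F)) := by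
    rw [Ideal.mem_span_singleton, PowerSeries.X_dvd_iff, hf, Polynomial.eval_mul, map_mul, hev, h0,
      mul_zero]
  have hf1 : IsUnit (f.derivative.eval (PowerSeries.C y0)) := by
    rw [PowerSeries.isUnit_iff_constantCoeff, isUnit_iff_ne_zero, hf, Polynomial.derivative_C_mul,
      Polynomial.eval_mul, Polynomial.eval_C, map_mul, hGt, Polynomial.derivative_map, hev,
      ← Polynomial.derivative_map]
    refine mul_ne_zero ?_ h1
    have := (PowerSeries.isUnit_iff_constantCoeff.mp (a⁻¹).isUnit)
    exact this.ne_zero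
  obtain ⟨y, hy, _⟩ := HenselianRing.is_henselian (R := PowerSeries F)
    (I := Ideal.span {PowerSeries.X}) f hmon (PowerSeries.C y0) hf0 (hf1.map _)
  refine ⟨y, ?_⟩
  have h2 : f.eval y = 0 := hy
  rw [hf, Polynomial.eval_mul, Polynomial.eval_C] at h2
  rw [← Polynomial.eval_map]
  exact (Units.mul_right_eq_zero _).mp h2

/-- `jps` is injective -/
theorem jps_injective (F : Type) [Field F] [Algebra ℚ F] (r : ℚ) :
    Function.Injective (jps F r) := by
  rw [injective_iff_map_eq_zero]
  intro P hP
  have h1 : jps F r P = (((P.comp (X + C r)).map (algebraMap ℚ F) : F[X]) : PowerSeries F) := by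
    have h2 : jps F r = ((Polynomial.coeToPowerSeries.ringHom (R := F)).comp
        (Polynomial.mapRingHom (algebraMap ℚ F))).comp (Polynomial.compRingHom (X + C r)) := by
      apply Polynomial.ringHom_ext
      · intro a
        simp [jps]
      · simp [jps, add_comm]
    rw [h2]
    rfl
  rw [h1, Polynomial.coe_eq_zero_iff, Polynomial.map_eq_zero] at hP
  have h3 : (P.comp (X + C r)).comp (X - C r) = P := by
    rw [Polynomial.comp_assoc]
    simp
  rw [← h3, hP, Polynomial.zero_comp]

end Pool.Agent.Lib.MP_fa3e6c_al
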