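import Mathlib

/-!
# Choice of the specialisation point

Proof. Clear denominators in `A G + B G' = 1` over `ℚ(T)`: there are `A, B ∈ ℚ[T][Y]` and
`D ∈ ℚ[T]`, `D ≠ 0`, with `A G + B G' = D`. Choose `r` with `D(r) ≠ 0` and
`G.leadingCoeff (r) ≠ 0` (a nonzero polynomial has finitely many roots).
-/

set_option autoImplicit false

namespace Pool.Agent.Lib.MP_fa3e6c_al

open Polynomial

/-- clearing denominators -/
private theorem clear_den (a : (FractionRing ℚ[X])[X]) :
    ∃ (A : ℚ[X][X]) (d : ℚ[X]), d ≠ 0 ∧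
      A.map (algebraMap ℚ[X] (FractionRing ℚ[X])) =
        C (algebraMap ℚ[X] (FractionRing ℚ[X]) d) * a := by
  obtain ⟨b, hbM, hb⟩ := IsLocalization.integerNormalization_spec
    (nonZeroDivisors ℚ[X]) a
  refine ⟨IsLocalization.integerNormalization (nonZeroDivisors ℚ[X]) a, b,
    nonZeroDivisors.ne_zero hbM, ?_⟩
  rw [hb]
  ext n
  simp [Algebra.smul_def]

/-- for `G ∈ ℚ[T][Y]`, separable over `ℚ(T)`, there is `r` such that the leading coefficient does
not vanish at `r` and the specialisation is separable -/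
theorem exists_r (G : ℚ[X][X]) (hG : G ≠ 0)
    (hsep : (G.map (algebraMap ℚ[X] (FractionRing ℚ[X]))).Separable) :
    ∃ r : ℚ, (G.leadingCoeff).eval r ≠ 0 ∧ (G.map (evalRingHom r)).Separable := by
  obtain ⟨a, b, hab⟩ := hsep
  obtain ⟨A, d, hd, hA⟩ := clear_den a
  obtain ⟨B, e, he, hB⟩ := clear_den b
  have hinj : Function.Injective
      (Polynomial.map (algebraMap ℚ[X] (FractionRing ℚ[X])) : ℚ[X][X] → _) :=
    Polynomial.map_injective _ (IsFractionRing.injective _ _)
  have key : C e * A * G + C d * B * derivative G = C (d * e) := by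
    apply hinj
    rw [derivative_map] at hab
    simp only [Polynomial.map_add, Polynomial.map_mul, Polynomial.map_C, hA, hB, map_mul]
    linear_combination (C (algebraMap ℚ[X] (FractionRing ℚ[X]) d) *
      C (algebraMap ℚ[X] (FractionRing ℚ[X]) e)) * hab
  have hP : d * e * G.leadingCoeff ≠ 0 :=
    mul_ne_zero (mul_ne_zero hd he) (leadingCoeff_ne_zero.mpr hG)
  obtain ⟨r, hr⟩ : ∃ r : ℚ, (d * e * G.leadingCoeff).eval r ≠ 0 := by
    by_contra hcon
    push Not at hcon
    exact hP (Polynomial.funext (by simpa using hcon))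
  rw [eval_mul] at hr
  refine ⟨r, right_ne_zero_of_mul hr, ?_⟩
  have hde := left_ne_zero_of_mul hr
  have key2 := congrArg (Polynomial.map (evalRingHom r)) key
  simp only [Polynomial.map_add, Polynomial.map_mul, Polynomial.map_C, coe_evalRingHom] at key2
  refine ⟨C ((d * e).eval r)⁻¹ * (C (e.eval r) * A.map (evalRingHom r)),
    C ((d * e).eval r)⁻¹ * (C (d.eval r) * B.map (evalRingHom r)), ?_⟩
  rw [derivative_map]
  have h3 : C ((d * e).eval r)⁻¹ * C ((d * e).eval r) = (1 : ℚ[X]) := by
    rw [← C_mul, inv_mul_cancel₀ hde, C_1]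
  linear_combination (C ((d * e).eval r)⁻¹) * key2 + h3

end Pool.Agent.Lib.MP_fa3e6c_al
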