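import Mathlib
import Pool.Agent.Lib.MP_ea3785_nt.WeakChebQuad

/-!
# Choice of the primes `p` and `u`

Proof of `exists_p`. Let `k` be the splitting field of `g * (X^8 - 1)` over `ℚ`, `β ∈ k` a root of
`g`, `ζ ∈ 𝓞 k` with `ζ ^ 4 = -1`, `m ≥ 1` an integer with `γ = m β ∈ 𝓞 k`, `g₁ ∈ ℤ[X]` the minimal
polynomial of `γ` over `ℤ`, so `g₁'(γ) ≠ 0`. `WeakCheb.exists_prescribed` with `s = ∅` gives
arbitrarily large primes `p` and `φ : 𝓞 k →+* ZMod p`; for `p` large `φ (g₁'(γ)) ≠ 0`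
(`WeakCheb.map_ne_zero_of_lt`). So `φ γ` is a simple root of `g₁` mod `p`: Hensel
(`hensels_lemma` for `ℤ_[p]`) gives a root `a` of `g₁` in `ℤ_[p]`, and `a / m` is a root of `g`
because `g (X / m)` vanishes at `γ`, hence is divisible by `g₁` over `ℚ`. `φ ζ` has order `8` in
`(ZMod p)ˣ` (`(φ ζ)^4 = -1 ≠ 1` since `p > 2`), so `8 ∣ p - 1`.
Proof of `exists_u`: there is a nonresidue `a < p`; it has a prime factor which is a nonresidue.
-/

set_option autoImplicit false

namespace Pool.Agent.Lib.MP_fa3e6c_al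

open NumberField Pool.Agent.Lib.WeakCheb

/-- `p = 1 mod 8` from a fourth root of `-1` -/
private theorem mod_eight (p : ℕ) (hp : p.Prime) (hp2 : 2 < p) (z : ZMod p) (hz : z ^ 4 = -1) :
    p % 8 = 1 := by
  have : Fact p.Prime := ⟨hp⟩
  have : Fact (2 : ℕ).Prime := ⟨Nat.prime_two⟩
  have : Fact (2 < p) := ⟨hp2⟩
  have hne : (-1 : ZMod p) ≠ 1 := ZMod.neg_one_ne_one
  have hz0 : z ≠ 0 := by
    rintro rfl
    rw [zero_pow (by norm_num)] at hz
    exact (neg_ne_zero.mpr one_ne_zero) hz.symm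
  have ho : orderOf z = 2 ^ (2 + 1) := by
    apply orderOf_eq_prime_pow
    · norm_num
      rw [hz]
      exact hne
    · have : z ^ 2 ^ (2 + 1) = (z ^ 4) ^ 2 := by rw [← pow_mul]; norm_num
      rw [this, hz]
      norm_num
  have hd : 8 ∣ p - 1 := by
    have h1 : orderOf z ∣ p - 1 := orderOf_dvd_of_pow_eq_one (ZMod.pow_card_sub_one_eq_one hz0)
    rw [ho] at h1
    norm_num at h1
    exact h1
  omega

private theorem map_aeval_int {A B : Type*} [CommRing A] [CommRing B] (φ : A →+* B) (a : A)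
    (f : Polynomial ℤ) : φ (Polynomial.aeval a f) = Polynomial.aeval (φ a) f :=
  (Polynomial.aeval_algHom_apply φ.toIntAlgHom a f).symm

/-- Hensel for a polynomial over `ℤ` with a simple root modulo `p` -/
private theorem padic_root (p : ℕ) [Fact p.Prime] (g : Polynomial ℤ) (r : ZMod p)
    (h0 : Polynomial.aeval r g = 0) (h1 : Polynomial.aeval r (Polynomial.derivative g) ≠ 0) :
    ∃ a : ℤ_[p], Polynomial.aeval a g = 0 := by
  have hcast : PadicInt.toZMod ((r.val : ℕ) : ℤ_[p]) = r := by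
    rw [map_natCast, ZMod.natCast_zmod_val]
  have key : ∀ f : Polynomial ℤ, PadicInt.toZMod (Polynomial.aeval ((r.val : ℕ) : ℤ_[p]) f) =
      Polynomial.aeval r f := by
    intro f
    rw [map_aeval_int, hcast]
  have hlt : ‖Polynomial.aeval ((r.val : ℕ) : ℤ_[p]) g‖ < 1 := by
    have : Polynomial.aeval ((r.val : ℕ) : ℤ_[p]) g ∈ RingHom.ker (PadicInt.toZMod (p := p)) := by
      rw [RingHom.mem_ker, key, h0]
    rw [PadicInt.ker_toZMod] at this
    exact PadicInt.mem_nonunits.mp ((IsLocalRing.mem_maximalIdeal _).mp this)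
  have heq : ‖Polynomial.aeval ((r.val : ℕ) : ℤ_[p]) (Polynomial.derivative g)‖ = 1 := by
    by_contra hne
    have hlt' : ‖Polynomial.aeval ((r.val : ℕ) : ℤ_[p]) (Polynomial.derivative g)‖ < 1 :=
      lt_of_le_of_ne (PadicInt.norm_le_one _) hne
    have : Polynomial.aeval ((r.val : ℕ) : ℤ_[p]) (Polynomial.derivative g) ∈
        RingHom.ker (PadicInt.toZMod (p := p)) := by
      rw [PadicInt.ker_toZMod]
      exact (IsLocalRing.mem_maximalIdeal _).mpr (PadicInt.mem_nonunits.mpr hlt')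
    rw [RingHom.mem_ker, key] at this
    exact h1 this
  obtain ⟨z, hz, -⟩ := hensels_lemma (F := g) (a := ((r.val : ℕ) : ℤ_[p]))
    (by rw [heq]; simpa using hlt)
  exact ⟨z, hz⟩

/-- Every nonconstant rational polynomial has a root in `ℚ_p` for some prime `p ≡ 1 mod 8`. -/
theorem exists_p (g : Polynomial ℚ) (hg : 0 < g.natDegree) :
    ∃ (p : ℕ) (_ : Fact p.Prime), p % 8 = 1 ∧ ∃ y : ℚ_[p], Polynomial.aeval y g = 0 := by
  classical
  have hg0 : g ≠ 0 := by
    rintro rfl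
    simp at hg
  set F : Polynomial ℚ := g * (Polynomial.X ^ 4 + 1) with hF
  have h40 : (Polynomial.X ^ 4 + 1 : Polynomial ℚ).natDegree = 4 := by
    have := Polynomial.natDegree_X_pow_add_C (R := ℚ) (n := 4) (r := 1)
    simpa using this
  have h4 : (Polynomial.X ^ 4 + 1 : Polynomial ℚ) ≠ 0 := by
    intro h
    rw [h] at h40
    simp at h40
  have hF0 : F ≠ 0 := mul_ne_zero hg0 h4
  let k := F.SplittingField
  have : NumberField k := ⟨⟩
  have hsF : (F.map (algebraMap ℚ k)).Splits := Polynomial.SplittingField.splits F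
  have hFm : F.map (algebraMap ℚ k) ≠ 0 := by
    rwa [Ne, Polynomial.map_eq_zero]
  have root : ∀ f : Polynomial ℚ, f ∣ F → 0 < f.natDegree → ∃ b : k, Polynomial.aeval b f = 0 := by
    intro f hf hd
    have hs : (f.map (algebraMap ℚ k)).Splits :=
      hsF.of_dvd hFm (Polynomial.map_dvd _ hf)
    obtain ⟨b, hb⟩ := hs.exists_eval_eq_zero (by
      rw [Polynomial.degree_map]
      intro h
      rw [← Polynomial.natDegree_eq_zero_iff_degree_le_zero.mpr (le_of_eq h)] at hd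
      exact lt_irrefl _ hd)
    exact ⟨b, by rwa [Polynomial.aeval_def, ← Polynomial.eval_map]⟩
  obtain ⟨β, hβ⟩ := root g (Dvd.intro _ rfl) hg
  obtain ⟨ζ, hζ⟩ := root (Polynomial.X ^ 4 + 1) (Dvd.intro_left _ rfl) (by rw [h40]; norm_num)
  have hζ4 : ζ ^ 4 = -1 := by
    have : ζ ^ 4 + 1 = 0 := by simpa using hζ
    exact eq_neg_of_add_eq_zero_left this
  have hζi : IsIntegral ℤ ζ := by
    refine ⟨Polynomial.X ^ 4 + 1, ?_, ?_⟩
    · have := Polynomial.monic_X_pow_add_C (1 : ℤ) (n := 4) (by norm_num)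
      simpa using this
    · simp [hζ4]
  obtain ⟨ζ', hζ'⟩ : ∃ z : 𝓞 k, (z : k) = ζ := ⟨⟨ζ, hζi⟩, rfl⟩
  have hζ'4 : ζ' ^ 4 = -1 := by
    have h5 : algebraMap (𝓞 k) k (ζ' ^ 4) = algebraMap (𝓞 k) k (-1) := by
      rw [map_pow, map_neg, map_one]
      change (ζ' : k) ^ 4 = -1
      rw [hζ', hζ4]
    exact RingOfIntegers.ext h5
  have halg : IsAlgebraic ℤ β := by
    have h1 : IsAlgebraic ℚ β := ⟨g, hg0, hβ⟩
    exact (IsFractionRing.isAlgebraic_iff ℤ ℚ k).mpr h1
  obtain ⟨m, hm0, hmi⟩ := halg.exists_integral_multiple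
  obtain ⟨γ, hγ⟩ : ∃ z : 𝓞 k, (z : k) = m • β := ⟨⟨m • β, hmi⟩, rfl⟩
  -- minimal polynomial over `ℤ`
  set g₁ : Polynomial ℤ := minpoly ℤ (γ : k) with hg₁
  have hγi : IsIntegral ℤ (γ : k) := γ.2
  have hmin : minpoly ℚ (γ : k) = g₁.map (algebraMap ℤ ℚ) :=
    minpoly.isIntegrallyClosed_eq_field_fractions' ℚ hγi
  have hγ1 : Polynomial.aeval (γ : k) g₁ = 0 := minpoly.aeval ℤ (γ : k)
  have hγ1' : Polynomial.aeval γ g₁ = 0 := by
    have : algebraMap (𝓞 k) k (Polynomial.aeval γ g₁) = 0 := by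
      rw [← Polynomial.aeval_algebraMap_apply]
      exact hγ1
    exact (FaithfulSMul.algebraMap_eq_zero_iff (𝓞 k) k).mp this
  have hsep : (minpoly ℚ (γ : k)).Separable :=
    (minpoly.irreducible (Algebra.IsIntegral.isIntegral (γ : k))).separable
  have hd0 : Polynomial.aeval (γ : k) (Polynomial.derivative (minpoly ℚ (γ : k))) ≠ 0 :=
    hsep.aeval_derivative_ne_zero (minpoly.aeval ℚ (γ : k))
  have hd1 : Polynomial.aeval γ (Polynomial.derivative g₁) ≠ 0 := by
    intro h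
    apply hd0
    rw [hmin, Polynomial.derivative_map, Polynomial.aeval_map_algebraMap,
      show (γ : k) = algebraMap (𝓞 k) k γ from rfl, Polynomial.aeval_algebraMap_apply, h, map_zero]
  -- the prime
  obtain ⟨p, hp, hpN, φ, -⟩ := exists_prescribed (ι := Unit) ∅ k (fun _ => 1)
    (fun S hS hne => by
      rw [Finset.subset_empty] at hS
      exact absurd hS hne.ne_empty) (fun _ => True)
    (2 + Ideal.absNorm (Ideal.span {Polynomial.aeval γ (Polynomial.derivative g₁)}))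
  have hpf : Fact p.Prime := ⟨hp⟩
  have hφd : φ (Polynomial.aeval γ (Polynomial.derivative g₁)) ≠ 0 :=
    map_ne_zero_of_lt hd1 (by omega) φ
  have hφ : ∀ f : Polynomial ℤ, φ (Polynomial.aeval γ f) = Polynomial.aeval (φ γ) f :=
    fun f => map_aeval_int φ γ f
  have hp8 : p % 8 = 1 := by
    refine mod_eight p hp (by omega) (φ ζ') ?_
    rw [← map_pow, hζ'4, map_neg, map_one]
  obtain ⟨a, ha⟩ := padic_root p g₁ (φ γ) (by rw [← hφ, hγ1', map_zero])
    (by rw [← hφ]; exact hφd)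
  refine ⟨p, hpf, hp8, (a : ℚ_[p]) / (m : ℚ_[p]), ?_⟩
  have haq : Polynomial.aeval (a : ℚ_[p]) (minpoly ℚ (γ : k)) = 0 := by
    rw [hmin, Polynomial.aeval_map_algebraMap]
    have h1 := map_aeval_int (PadicInt.Coe.ringHom (p := p)) a g₁
    rw [ha, map_zero] at h1
    exact h1.symm
  have hdvd : minpoly ℚ (γ : k) ∣ g.comp (Polynomial.C ((m : ℚ)⁻¹) * Polynomial.X) := by
    apply minpoly.dvd
    rw [Polynomial.aeval_comp]
    have : Polynomial.aeval (γ : k) (Polynomial.C ((m : ℚ)⁻¹) * Polynomial.X) = β := by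
      have hmk : (m : k) ≠ 0 := by exact_mod_cast hm0
      simp only [map_mul, Polynomial.aeval_C, Polynomial.aeval_X, map_inv₀, map_intCast]
      rw [hγ, zsmul_eq_mul, ← mul_assoc, inv_mul_cancel₀ hmk, one_mul]
    rw [this, hβ]
  obtain ⟨q, hq⟩ := hdvd
  have h2 : Polynomial.aeval (a : ℚ_[p]) (g.comp (Polynomial.C ((m : ℚ)⁻¹) * Polynomial.X)) = 0 := by
    rw [hq, map_mul, haq, zero_mul]
  rw [Polynomial.aeval_comp] at h2
  have : Polynomial.aeval (a : ℚ_[p]) (Polynomial.C ((m : ℚ)⁻¹) * Polynomial.X) =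
      (a : ℚ_[p]) / (m : ℚ_[p]) := by
    simp only [map_mul, Polynomial.aeval_C, Polynomial.aeval_X, map_inv₀, map_intCast]
    rw [div_eq_mul_inv, mul_comm]
  rw [this] at h2
  exact h2

/-- There is a prime `u` which is not a square modulo `p`. -/
theorem exists_u (p : ℕ) (hp : p.Prime) (hp2 : p ≠ 2) :
    ∃ u : ℕ, u.Prime ∧ ¬ IsSquare (u : ZMod p) := by
  have : Fact p.Prime := ⟨hp⟩
  by_contra hcon
  push Not at hcon
  have hall : ∀ n : ℕ, IsSquare (n : ZMod p) := by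
    intro n
    induction n using Nat.recOnMul with
    | zero => exact ⟨0, by simp⟩
    | one => exact ⟨1, by simp⟩
    | prime q hq => exact hcon q hq
    | mul a b ha hb =>
      rw [Nat.cast_mul]
      exact ha.mul hb
  obtain ⟨a, ha⟩ := FiniteField.exists_nonsquare (F := ZMod p) (by
    rw [ZMod.ringChar_zmod_n]
    exact hp2)
  apply ha
  have := hall a.val
  rwa [ZMod.natCast_zmod_val] at this

end Pool.Agent.Lib.MP_fa3e6c_al
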