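import Mathlib
import Pool.Agent.Lib.MP_fa3e6c_al.PrimeP
import Pool.Agent.Lib.MP_fa3e6c_al.EmbH
import Pool.Agent.Lib.MP_fa3e6c_al.EmbR

/-!
# Embedding a finitely generated field of transcendence degree one into `ℚ_p((X))`

Proof. Choose `t₀ ∈ K` transcendental over `ℚ` with `K` algebraic, hence finite, over
`Q = ℚ(t₀)` (identify `Q` with `FractionRing ℚ[X]` via `t₀`). `K = Q(θ)`, `m` the minimal polynomial
of `θ` over `Q`, `G ∈ ℚ[T][Y]` a nonzero multiple of `m` by an element of `ℚ[T]`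
(`IsLocalization.integerNormalization`), separable over `ℚ(T)`, of positive degree in `Y`.
`exists_r` gives `r`; `G_r` is separable of positive degree; `exists_p` gives `p` and a root `y0`
of `G_r` in `ℚ_p`, simple because `G_r` is separable; `hensel_ps` gives a root `y ∈ ℚ_p⟦X⟧` of `G`.
The injective map `jps` extends to `Q → ℚ_p((X))`, and `θ ↦ y` extends it to `K`
(`PowerBasis.lift` or `AdjoinRoot`). Put `t = t₀ - r`: `ι t = (r + X) - r = X`.
-/

set_option autoImplicit false

universe u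

namespace Pool.Agent.Lib.MP_fa3e6c_al

open Polynomial

/-- a transcendental element over which everything is algebraic -/
private theorem exists_t (K : Type u) [Field K] [CharZero K] (htr : Algebra.trdeg ℚ K = 1) :
    ∃ t : K, Transcendental ℚ t ∧ Algebra.IsAlgebraic (Algebra.adjoin ℚ {t}) K := by
  obtain ⟨s, hs⟩ := exists_isTranscendenceBasis ℚ K
  have h1 : Cardinal.mk s = 1 := by rw [hs.cardinalMk_eq_trdeg, htr]
  obtain ⟨hsub, ⟨⟨t, ht⟩⟩⟩ := Cardinal.eq_one_iff_unique.mp h1
  have hst : s = {t} := by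
    ext x
    constructor
    · intro hx
      exact congrArg Subtype.val (hsub.elim ⟨x, hx⟩ ⟨t, ht⟩)
    · rintro rfl
      exact ht
  subst hst
  refine ⟨t, ?_, ?_⟩
  · have := hs.1
    have h2 := (algebraicIndependent_iff_injective_aeval.mp this)
    exact this.transcendental ⟨t, rfl⟩
  · have := hs.isAlgebraic
    rwa [Subtype.range_coe_subtype] at this

private theorem finite_of_adjoin (Q : Type) [Field Q] [CharZero Q] (K : Type u) [Field K]
    [CharZero K] [Algebra Q K] [Algebra.IsAlgebraic Q K] {n : ℕ} (c : Fin n → K)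
    (hc : IntermediateField.adjoin ℚ (Set.range c) = ⊤) : FiniteDimensional Q K := by
  have htop : IntermediateField.adjoin Q (Set.range c) = ⊤ := by
    rw [eq_top_iff]
    intro x _
    have hx : x ∈ IntermediateField.adjoin ℚ (Set.range c) := by
      rw [hc]
      exact IntermediateField.mem_top
    induction hx using IntermediateField.adjoin_induction with
    | mem x hx => exact IntermediateField.subset_adjoin _ _ hx
    | algebraMap q =>
      rw [eq_ratCast]
      exact SubfieldClass.ratCast_mem _ q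
    | add x y _ _ hx hy => exact add_mem (hx trivial) (hy trivial)
    | inv x _ hx => exact inv_mem (hx trivial)
    | mul x y _ _ hx hy => exact mul_mem (hx trivial) (hy trivial)
  have h1 : FiniteDimensional Q (IntermediateField.adjoin Q (Set.range c)) :=
    IntermediateField.finiteDimensional_adjoin
      (fun x _ => (Algebra.IsAlgebraic.isAlgebraic x).isIntegral)
  rw [htop] at h1
  exact Module.Finite.equiv (IntermediateField.topEquiv (F := Q) (E := K)).toLinearEquiv

private theorem core (Q : Type) [Field Q] [CharZero Q] [Algebra ℚ[X] Q] [IsFractionRing ℚ[X] Q]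
    (K : Type u) [Field K] [CharZero K] [Algebra Q K] [Algebra.IsAlgebraic Q K]
    {n : ℕ} (c : Fin n → K)
    (hc : IntermediateField.adjoin ℚ (Set.range c) = ⊤) :
    ∃ (r : ℚ) (p : ℕ) (_ : Fact p.Prime) (ι : K →+* LaurentSeries ℚ_[p]),
      p % 8 = 1 ∧ ι (algebraMap Q K (algebraMap ℚ[X] Q (X - C r))) = HahnSeries.single 1 1 := by
  classical
  have hfin : FiniteDimensional Q K := finite_of_adjoin Q K c hc
  obtain ⟨θ, hθ⟩ := Field.exists_primitive_element Q K
  have hθi : IsIntegral Q θ := Algebra.IsIntegral.isIntegral θ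
  set m := minpoly Q θ with hm
  have hm0 : m ≠ 0 := minpoly.ne_zero hθi
  have hmsep : m.Separable := Algebra.IsSeparable.isSeparable Q θ
  obtain ⟨b, hb, hG⟩ := IsLocalization.integerNormalization_spec (nonZeroDivisors ℚ[X]) m
  set G := IsLocalization.integerNormalization (nonZeroDivisors ℚ[X]) m with hGdef
  have hb0 : b ≠ 0 := nonZeroDivisors.ne_zero hb
  have hinj : Function.Injective (algebraMap ℚ[X] Q) := IsFractionRing.injective ℚ[X] Q
  have hbu : algebraMap ℚ[X] Q b ≠ 0 := by
    intro h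
    exact hb0 (hinj (by rw [h, map_zero]))
  have hG' : G.map (algebraMap ℚ[X] Q) = C (algebraMap ℚ[X] Q b) * m := by
    rw [hG, Algebra.smul_def]
    rfl
  have hG0 : G ≠ 0 := by
    intro h
    rw [h, Polynomial.map_zero] at hG'
    exact mul_ne_zero (C_ne_zero.mpr hbu) hm0 hG'.symm
  have hGsep1 : (G.map (algebraMap ℚ[X] Q)).Separable := by
    rw [hG']
    exact (hmsep.unit_mul ((isUnit_C.mpr (isUnit_iff_ne_zero.mpr hbu))))
  have hGsep : (G.map (algebraMap ℚ[X] (FractionRing ℚ[X]))).Separable := by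
    have h2 : G.map (algebraMap ℚ[X] Q) = (G.map (algebraMap ℚ[X] (FractionRing ℚ[X]))).map
        ((FractionRing.algEquiv ℚ[X] Q : FractionRing ℚ[X] →+* Q)) := by
      rw [Polynomial.map_map]
      congr 1
      ext x <;> simp
    rw [h2, Polynomial.separable_map] at hGsep1
    exact hGsep1
  have hGdeg : 0 < G.natDegree := by
    rw [← Polynomial.natDegree_map_eq_of_injective hinj G, hG', natDegree_C_mul hbu]
    exact minpoly.natDegree_pos hθi
  obtain ⟨r, hr, hrs⟩ := exists_r G hG0 hGsep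
  have hdeg' : 0 < (G.map (evalRingHom r)).natDegree := by
    rw [Polynomial.natDegree_map_of_leadingCoeff_ne_zero]
    · exact hGdeg
    · simpa using hr
  obtain ⟨p, hp, hp8, y0, hy0⟩ := exists_p (G.map (evalRingHom r)) hdeg'
  obtain ⟨y, hy⟩ := hensel_ps ℚ_[p] r G hr y0 hy0 (hrs.aeval_derivative_ne_zero hy0)
  -- the map on `ℚ[X]`
  let j : ℚ[X] →+* LaurentSeries ℚ_[p] := (HahnSeries.ofPowerSeries ℤ ℚ_[p]).comp (jps ℚ_[p] r)
  have hj : Function.Injective j :=
    HahnSeries.ofPowerSeries_injective.comp (jps_injective ℚ_[p] r)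
  let i : Q →+* LaurentSeries ℚ_[p] := IsFractionRing.lift hj
  have hi : ∀ q : ℚ[X], i (algebraMap ℚ[X] Q q) = j q :=
    fun q => IsFractionRing.lift_algebraMap hj q
  have hij : i.comp (algebraMap ℚ[X] Q) = j := RingHom.ext hi
  have hroot : eval₂ i (HahnSeries.ofPowerSeries ℤ ℚ_[p] y) m = 0 := by
    have h1 : eval₂ i (HahnSeries.ofPowerSeries ℤ ℚ_[p] y) (G.map (algebraMap ℚ[X] Q)) = 0 := by
      rw [eval₂_map, hij]
      have := Polynomial.hom_eval₂ G (jps ℚ_[p] r) (HahnSeries.ofPowerSeries ℤ ℚ_[p]) y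
      rw [hy, map_zero] at this
      exact this.symm
    rw [hG', eval₂_mul, eval₂_C] at h1
    have h2 : i (algebraMap ℚ[X] Q b) ≠ 0 := by
      rw [Ne, map_eq_zero]
      exact hbu
    exact (mul_eq_zero.mp h1).resolve_left h2
  let L : AdjoinRoot m →+* LaurentSeries ℚ_[p] := AdjoinRoot.lift i _ hroot
  let e1 : IntermediateField.adjoin Q {θ} ≃ₐ[Q] AdjoinRoot m :=
    (IntermediateField.adjoinRootEquivAdjoin Q hθi).symm
  let e2 : K ≃ₐ[Q] IntermediateField.adjoin Q {θ} :=
    ((IntermediateField.equivOfEq hθ).trans IntermediateField.topEquiv).symm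
  refine ⟨r, p, hp, (L.comp (e1 : _ →+* AdjoinRoot m)).comp
    (e2 : K →+* IntermediateField.adjoin Q {θ}), hp8, ?_⟩
  change L (e1 (e2 (algebraMap Q K _))) = _
  rw [AlgEquiv.commutes, AlgEquiv.commutes]
  change AdjoinRoot.lift i _ hroot (AdjoinRoot.of m _) = _
  rw [AdjoinRoot.lift_of, hi]
  change HahnSeries.ofPowerSeries ℤ ℚ_[p] (jps ℚ_[p] r (X - C r)) = _
  have h2 : jps ℚ_[p] r (X - C r) = PowerSeries.X := by
    simp [jps]
  rw [h2, HahnSeries.ofPowerSeries_X]

/-- the embedding -/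
theorem exists_embed (K : Type u) [Field K] [CharZero K] {n : ℕ} (c : Fin n → K)
    (hc : IntermediateField.adjoin ℚ (Set.range c) = ⊤) (htr : Algebra.trdeg ℚ K = 1) :
    ∃ (t : K) (p : ℕ) (_ : Fact p.Prime) (ι : K →+* LaurentSeries ℚ_[p]),
      Transcendental ℚ t ∧ p % 8 = 1 ∧ ι t = HahnSeries.single 1 1 := by
  obtain ⟨t₀, ht, hal⟩ := exists_t K htr
  let _ : Algebra ℚ[X] K := (aeval t₀).toRingHom.toAlgebra
  have hamap : ∀ q : ℚ[X], algebraMap ℚ[X] K q = aeval t₀ q := fun q => rfl
  have hfaith : FaithfulSMul ℚ[X] K := by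
    rw [faithfulSMul_iff_algebraMap_injective]
    exact transcendental_iff_injective.mp ht
  have halg : Algebra.IsAlgebraic ℚ[X] K := by
    have hsur : ∀ x : Algebra.adjoin ℚ {t₀}, ∃ q : ℚ[X], aeval t₀ q = (x : K) := by
      intro x
      have h3 : (x : K) ∈ (aeval t₀ : ℚ[X] →ₐ[ℚ] K).range :=
        (Algebra.adjoin_singleton_eq_range_aeval ℚ t₀).le x.2
      exact h3
    let f : ℚ[X] →+* Algebra.adjoin ℚ {t₀} :=
      (((aeval t₀).codRestrict (Algebra.adjoin ℚ {t₀}) (fun q => by
        rw [Algebra.adjoin_singleton_eq_range_aeval]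
        exact ⟨q, rfl⟩) : ℚ[X] →ₐ[ℚ] Algebra.adjoin ℚ {t₀}) : ℚ[X] →+* Algebra.adjoin ℚ {t₀})
    exact Algebra.IsAlgebraic.of_ringHom_of_comp_eq f (RingHom.id K)
      (fun x => by
        obtain ⟨q, hq⟩ := hsur x
        exact ⟨q, Subtype.ext hq⟩) Function.injective_id (by
        ext x <;> rfl)
  let _ : Algebra (FractionRing ℚ[X]) K := FractionRing.liftAlgebra ℚ[X] K
  have htower : IsScalarTower ℚ[X] (FractionRing ℚ[X]) K :=
    FractionRing.isScalarTower_liftAlgebra ℚ[X] K
  have halg2 : Algebra.IsAlgebraic (FractionRing ℚ[X]) K :=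
    (IsFractionRing.comap_isAlgebraic_iff (A := ℚ[X]) (K := FractionRing ℚ[X]) (C := K)).mp
      inferInstance
  obtain ⟨r, p, hp, ι, hp8, hι⟩ := core (FractionRing ℚ[X]) K c hc
  refine ⟨t₀ - algebraMap ℚ K r, p, hp, ι, ?_, hp8, ?_⟩
  · intro h
    apply ht
    have := h.add (isAlgebraic_algebraMap (R := ℚ) (A := K) r)
    simpa using this
  · rw [← hι, ← IsScalarTower.algebraMap_apply ℚ[X] (FractionRing ℚ[X]) K, hamap]
    simp

end Pool.Agent.Lib.MP_fa3e6c_al
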