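import Mathlib
import Pool.Agent.Lib.MP_fa3e6c_al.Defs

/-!
# The finite set of identities expressing `Good`
-/

set_option autoImplicit false

universe u w

namespace Pool.Agent.Lib.MP_fa3e6c_al

/-- numerals -/
private def numT {C V : Type} : ℕ → Tm C V
  | 0 => Tm.zero
  | n + 1 => Tm.add (numT n) Tm.one

private lemma eval_numT {C V : Type} {A : Type w} [Field A] (c : C → A) (v : V → A) (n : ℕ) :
    (numT n : Tm C V).eval c v = (n : A) := by
  induction n with
  | zero => simp [numT, Tm.eval]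
  | succ n ih => simp only [numT, Tm.eval, ih]; push_cast; ring

private def intT {C V : Type} : ℤ → Tm C V
  | Int.ofNat n => numT n
  | Int.negSucc n => Tm.neg (numT (n + 1))

private lemma eval_intT {C V : Type} {A : Type w} [Field A] (c : C → A) (v : V → A) (n : ℤ) :
    (intT n : Tm C V).eval c v = (n : A) := by
  cases n with
  | ofNat n => simp [intT, eval_numT]
  | negSucc n => simp only [intT, Tm.eval, eval_numT]; push_cast; ring

private lemma exists_tm {n : ℕ} (P : MvPolynomial (Fin (n + 1) ⊕ ℕ) ℤ) :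
    ∃ τ : Tm (Fin (n + 1)) ℕ,
      (∀ (A : Type u) [Field A] (c : Fin (n + 1) → A) (v : ℕ → A),
        τ.eval c v = MvPolynomial.aeval (Sum.elim c v) P) ∧
      (∀ (A : Type) [Field A] (c : Fin (n + 1) → A) (v : ℕ → A),
        τ.eval c v = MvPolynomial.aeval (Sum.elim c v) P) := by
  induction P using MvPolynomial.induction_on with
  | C a => exact ⟨intT a, fun A _ c v => by rw [eval_intT]; simp,
      fun A _ c v => by rw [eval_intT]; simp⟩
  | add P Q hP hQ =>
    obtain ⟨s, hs, hs'⟩ := hP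
    obtain ⟨t, ht, ht'⟩ := hQ
    exact ⟨Tm.add s t, fun A _ c v => by rw [Tm.eval, hs, ht, map_add],
      fun A _ c v => by rw [Tm.eval, hs', ht', map_add]⟩
  | mul_X P i hP =>
    obtain ⟨s, hs, hs'⟩ := hP
    cases i with
    | inl i => exact ⟨Tm.mul s (Tm.cst i),
        fun A _ c v => by rw [Tm.eval, Tm.eval, hs, map_mul, MvPolynomial.aeval_X, Sum.elim_inl],
        fun A _ c v => by rw [Tm.eval, Tm.eval, hs', map_mul, MvPolynomial.aeval_X, Sum.elim_inl]⟩
    | inr i => exact ⟨Tm.mul s (Tm.var i),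
        fun A _ c v => by rw [Tm.eval, Tm.eval, hs, map_mul, MvPolynomial.aeval_X, Sum.elim_inr],
        fun A _ c v => by rw [Tm.eval, Tm.eval, hs', map_mul, MvPolynomial.aeval_X, Sum.elim_inr]⟩

private noncomputable def PF {n : ℕ} (p u : ℕ) : MvPolynomial (Fin (n + 1) ⊕ ℕ) ℤ :=
  (MvPolynomial.X (Sum.inr 0) ^ 2 - (p : MvPolynomial (Fin (n + 1) ⊕ ℕ) ℤ)) *
    (MvPolynomial.X (Sum.inr 0) ^ 2 - (u : MvPolynomial (Fin (n + 1) ⊕ ℕ) ℤ)) *
    (MvPolynomial.X (Sum.inr 0) ^ 2 - (p : MvPolynomial (Fin (n + 1) ⊕ ℕ) ℤ) * (u : MvPolynomial (Fin (n + 1) ⊕ ℕ) ℤ))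

private noncomputable def PA {n : ℕ} (p u : ℕ) : MvPolynomial (Fin (n + 1) ⊕ ℕ) ℤ :=
  AA (p : MvPolynomial (Fin (n + 1) ⊕ ℕ) ℤ) u (MvPolynomial.X (Sum.inl 0))
    (fun i => MvPolynomial.X (Sum.inr i))

private noncomputable def PB {n : ℕ} (p u : ℕ) : MvPolynomial (Fin (n + 1) ⊕ ℕ) ℤ :=
  BB (p : MvPolynomial (Fin (n + 1) ⊕ ℕ) ℤ) u (MvPolynomial.X (Sum.inl 0))
    (fun i => MvPolynomial.X (Sum.inr i))

private lemma aeval_PF {n : ℕ} (p u : ℕ) {A : Type w} [Field A] (c : Fin (n + 1) → A)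
    (v : ℕ → A) : MvPolynomial.aeval (Sum.elim c v) (PF (n := n) p u) =
      (v 0 ^ 2 - (p : A)) * (v 0 ^ 2 - (u : A)) * (v 0 ^ 2 - (p : A) * (u : A)) := by
  simp only [PF, map_mul, map_sub, map_pow, MvPolynomial.aeval_X, Sum.elim_inr, map_natCast]

private lemma aeval_PA {n : ℕ} (p u : ℕ) {A : Type w} [Field A] (c : Fin (n + 1) → A)
    (v : ℕ → A) : MvPolynomial.aeval (Sum.elim c v) (PA (n := n) p u) =
      AA (p : A) (u : A) (c 0) v := by
  simp only [PA, AA, map_mul, map_sub, map_pow, MvPolynomial.aeval_X, Sum.elim_inr, Sum.elim_inl,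
    map_natCast]

private lemma aeval_PB {n : ℕ} (p u : ℕ) {A : Type w} [Field A] (c : Fin (n + 1) → A)
    (v : ℕ → A) : MvPolynomial.aeval (Sum.elim c v) (PB (n := n) p u) =
      BB (p : A) (u : A) (c 0) v := by
  simp only [PB, BB, map_mul, map_sub, map_pow, MvPolynomial.aeval_X, Sum.elim_inr, Sum.elim_inl,
    map_natCast]

open Tm in
/-- the set of identities -/
private def EE {n : ℕ} (G : Finset (MvPolynomial (Fin (n + 1)) ℤ)) (tf tA tB : Tm (Fin (n + 1)) ℕ)
    (tg : MvPolynomial (Fin (n + 1)) ℤ → Tm (Fin (n + 1)) ℕ) : Set (Idt (Fin (n + 1))) :=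
  {(mul tf (inv tf), one)} ∪ (fun g => (tg g, zero)) '' (G : Set (MvPolynomial (Fin (n + 1)) ℤ)) ∪
    (fun i : ℕ => (mul (var i) (mul (add one (neg (mul tA (inv tA))))
      (add one (neg (mul tB (inv tB))))), zero)) '' Set.Iio 12

private lemma EE_finite {n : ℕ} (G : Finset (MvPolynomial (Fin (n + 1)) ℤ))
    (tf tA tB : Tm (Fin (n + 1)) ℕ) (tg : MvPolynomial (Fin (n + 1)) ℤ → Tm (Fin (n + 1)) ℕ) :
    (EE G tf tA tB tg).Finite :=
  ((Set.finite_singleton _).union ((Finset.finite_toSet G).image _)).union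
    ((Set.finite_Iio 12).image _)

private lemma sat_EE {n : ℕ} (G : Finset (MvPolynomial (Fin (n + 1)) ℤ)) (p u : ℕ)
    (tf tA tB : Tm (Fin (n + 1)) ℕ) (tg : MvPolynomial (Fin (n + 1)) ℤ → Tm (Fin (n + 1)) ℕ)
    {A : Type w} [Field A] (c : Fin (n + 1) → A)
    (hf : ∀ v, tf.eval c v =
      (v 0 ^ 2 - (p : A)) * (v 0 ^ 2 - (u : A)) * (v 0 ^ 2 - (p : A) * (u : A)))
    (hA : ∀ v, tA.eval c v = AA (p : A) (u : A) (c 0) v)
    (hB : ∀ v, tB.eval c v = BB (p : A) (u : A) (c 0) v)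
    (hg : ∀ g, ∀ v, (tg g).eval c v = MvPolynomial.aeval c g) :
    Sat (EE G tf tA tB tg) A c ↔ Good G p u A c := by
  constructor
  · intro h
    refine ⟨?_, ?_, ?_⟩
    · intro x
      have h1 := h _ (Or.inl (Or.inl rfl)) (fun _ => x)
      simp only [Tm.eval, hf] at h1
      intro h2
      rw [h2, zero_mul] at h1
      exact zero_ne_one h1
    · intro g hgG
      have h1 := h _ (Or.inl (Or.inr ⟨g, hgG, rfl⟩)) (fun _ => 0)
      simpa only [Tm.eval, hg] using h1
    · intro x hxA hxB i hi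
      have h1 := h _ (Or.inr ⟨i, hi, rfl⟩) x
      simp only [Tm.eval, hA, hB, hxA, hxB] at h1
      simpa using h1
  · intro h e he v
    rcases he with (he | he) | he
    · rw [Set.mem_singleton_iff] at he
      subst he
      simp only [Tm.eval, hf]
      exact mul_inv_cancel₀ (h.sq (v 0))
    · obtain ⟨g, hgG, rfl⟩ := he
      simp only [Tm.eval, hg]
      exact h.rel g hgG
    · obtain ⟨i, hi, rfl⟩ := he
      simp only [Tm.eval, hA, hB]
      by_cases h1 : AA (p : A) (u : A) (c 0) v = 0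
      · by_cases h2 : BB (p : A) (u : A) (c 0) v = 0
        · rw [h.form v h1 h2 i hi, zero_mul]
        · rw [mul_inv_cancel₀ h2]; ring
      · rw [mul_inv_cancel₀ h1]; ring

/-- The conditions `Good` are expressed by a finite set of identities in zero-totalised fields. -/
theorem exists_E {n : ℕ} (G : Finset (MvPolynomial (Fin (n + 1)) ℤ)) (p u : ℕ) :
    ∃ E : Set (Idt (Fin (n + 1))), E.Finite ∧
      (∀ (A : Type u) [Field A] (c : Fin (n + 1) → A), Sat E A c ↔ Good G p u A c) ∧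
      (∀ (A : Type) [Field A] (c : Fin (n + 1) → A), Sat E A c ↔ Good G p u A c) := by
  choose T hT hT' using fun P => exists_tm.{u} (n := n) P
  refine ⟨EE G (T (PF p u)) (T (PA p u)) (T (PB p u))
    (fun g => T (MvPolynomial.rename Sum.inl g)), EE_finite _ _ _ _ _, ?_, ?_⟩
  · intro A _ c
    apply sat_EE
    · intro v; rw [hT, aeval_PF]
    · intro v; rw [hT, aeval_PA]
    · intro v; rw [hT, aeval_PB]
    · intro g v; rw [hT, MvPolynomial.aeval_rename, Sum.elim_comp_inl]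
  · intro A _ c
    apply sat_EE
    · intro v; rw [hT', aeval_PF]
    · intro v; rw [hT', aeval_PA]
    · intro v; rw [hT', aeval_PB]
    · intro g v; rw [hT', MvPolynomial.aeval_rename, Sum.elim_comp_inl]

end Pool.Agent.Lib.MP_fa3e6c_al
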