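import Mathlib
import Pool.Agent.Lib.MP_fa3e6c_al.Defs

/-!
# Generation by constants; the characteristic

Proof. `gen_of_adjoin`: `IntermediateField.adjoin_induction` (rational numbers are quotients of
numerals `1 + ... + 1`). `adjoin_of_gen`: induction on closed terms. `numberField_of_gen`: `L` is
generated by finitely many algebraic elements, hence finite over `ℚ`. `charZero_of_good`: if `A`
has characteristic `l > 0` then one of `p, u, p u` is a square in `ZMod l` (the squares of
`(ZMod l)ˣ` have index at most two; zero is a square), and `ZMod l` maps to `A`.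
-/

set_option autoImplicit false

universe u

namespace Pool.Agent.Lib.MP_fa3e6c_al

private def genSub (K : Type u) [Field K] {n : ℕ} (c : Fin n → K) : Subfield K where
  carrier := {x | ∃ s : Tm (Fin n) Empty, s.eval c (fun e => e.elim) = x}
  mul_mem' := by
    rintro _ _ ⟨s, rfl⟩ ⟨t, rfl⟩
    exact ⟨Tm.mul s t, rfl⟩
  one_mem' := ⟨Tm.one, rfl⟩
  add_mem' := by
    rintro _ _ ⟨s, rfl⟩ ⟨t, rfl⟩
    exact ⟨Tm.add s t, rfl⟩
  zero_mem' := ⟨Tm.zero, rfl⟩
  neg_mem' := by
    rintro _ ⟨s, rfl⟩
    exact ⟨Tm.neg s, rfl⟩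
  inv_mem' := by
    rintro _ ⟨s, rfl⟩
    exact ⟨Tm.inv s, rfl⟩

theorem gen_of_adjoin (K : Type u) [Field K] [CharZero K] {n : ℕ} (c : Fin n → K)
    (hc : IntermediateField.adjoin ℚ (Set.range c) = ⊤) : Gen K c := by
  have h : IntermediateField.adjoin ℚ (Set.range c) ≤
      (genSub K c).toIntermediateField (fun q => by
        rw [eq_ratCast]
        exact SubfieldClass.ratCast_mem (genSub K c) q) := by
    rw [IntermediateField.adjoin_le_iff]
    rintro _ ⟨i, rfl⟩
    exact ⟨Tm.cst i, rfl⟩
  rw [hc] at h
  intro x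
  exact h (IntermediateField.mem_top (x := x))

theorem adjoin_of_gen (L : Type) [Field L] [CharZero L] {n : ℕ} (d : Fin n → L) (hd : Gen L d) :
    IntermediateField.adjoin ℚ (Set.range d) = ⊤ := by
  rw [eq_top_iff]
  intro x _
  obtain ⟨s, rfl⟩ := hd x
  induction s with
  | var e => exact e.elim
  | cst i => exact IntermediateField.subset_adjoin ℚ _ ⟨i, rfl⟩
  | zero => exact zero_mem _
  | one => exact one_mem _
  | add s t hs ht => exact add_mem (hs trivial) (ht trivial)
  | mul s t hs ht => exact mul_mem (hs trivial) (ht trivial)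
  | neg s hs => exact neg_mem (hs trivial)
  | inv s hs => exact inv_mem (hs trivial)

/-- a field generated by algebraic constants is a number field -/
theorem numberField_of_gen (L : Type) [Field L] [CharZero L] {n : ℕ} (d : Fin n → L)
    (hd : Gen L d) (halg : ∀ i, IsAlgebraic ℚ (d i)) : NumberField L := by
  have h1 := adjoin_of_gen L d hd
  have h2 : FiniteDimensional ℚ (IntermediateField.adjoin ℚ (Set.range d)) := by
    apply IntermediateField.finiteDimensional_adjoin
    rintro _ ⟨i, rfl⟩
    exact (halg i).isIntegral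
  rw [h1] at h2
  have h3 : FiniteDimensional ℚ L :=
    Module.Finite.equiv (IntermediateField.topEquiv (F := ℚ) (E := L)).toLinearEquiv
  exact ⟨⟩

/-- the first condition of `Good` forces characteristic zero -/
theorem charZero_of_good (A : Type u) [Field A] (p u : ℕ)
    (h : ∀ x : A, (x ^ 2 - (p : A)) * (x ^ 2 - (u : A)) * (x ^ 2 - (p : A) * (u : A)) ≠ 0) :
    CharZero A := by
  obtain ⟨l, hl⟩ := CharP.exists A
  rcases CharP.char_is_prime_or_zero A l with hp | h0
  · exfalso
    have : Fact l.Prime := ⟨hp⟩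
    have key : IsSquare ((p : ZMod l)) ∨ IsSquare ((u : ZMod l)) ∨
        IsSquare ((p : ZMod l) * (u : ZMod l)) := by
      by_contra hcon
      push Not at hcon
      obtain ⟨h1, h2, h3⟩ := hcon
      have e1 := (quadraticChar_neg_one_iff_not_isSquare (F := ZMod l)).2 h1
      have e2 := (quadraticChar_neg_one_iff_not_isSquare (F := ZMod l)).2 h2
      have e3 := (quadraticChar_neg_one_iff_not_isSquare (F := ZMod l)).2 h3
      rw [map_mul, e1, e2] at e3
      norm_num at e3
    let φ : ZMod l →+* A := ZMod.castHom (dvd_refl l) A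
    have hφ : ∀ m : ℕ, φ (m : ZMod l) = (m : A) := fun m => map_natCast φ m
    rcases key with ⟨r, hr⟩ | ⟨r, hr⟩ | ⟨r, hr⟩
    · apply h (φ r)
      have : (p : A) = φ r * φ r := by rw [← hφ, hr, map_mul]
      rw [this]; ring
    · apply h (φ r)
      have : (u : A) = φ r * φ r := by rw [← hφ, hr, map_mul]
      rw [this]; ring
    · apply h (φ r)
      have : (p : A) * (u : A) = φ r * φ r := by rw [← hφ, ← hφ, ← map_mul, hr, map_mul]
      rw [this]; ring
  · subst h0
    exact CharP.charP_to_charZero A

end Pool.Agent.Lib.MP_fa3e6c_al
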