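import Mathlib
import Pool.Agent.Lib.Mead.T1
import Pool.Agent.Lib.MP_fa3e6c_al.Defs

/-!
# The six-dimensional form is isotropic over totally complex number fields
-/

set_option autoImplicit false

universe u

namespace Pool.Agent.Lib.MP_fa3e6c_al

open NumberField

theorem isotropic (F : Type u) [Field F] [NumberField F] [IsTotallyComplex F] (p u : ℕ)
    (hp8 : p % 8 = 1) (hu : u ≠ 0) (s : F) :
    ∃ z w : Fin 3 → F, (z ≠ 0 ∨ w ≠ 0) ∧ hF (p : F) (u : F) z = s * hF (p : F) (u : F) w :=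
  Pool.Agent.Lib.Mead.t1 hp8 hu s

end Pool.Agent.Lib.MP_fa3e6c_al
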