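import Mathlib
import Pool.Agent.Lib.MP_fa3e6c_al.IsoT
import Pool.Agent.Lib.QCFT.Sep

/-!
# Failure of the form condition in number fields

Proof. If `-1` is a square in `L` then `L` is totally complex; take `z, w` from `isotropic` and put
`x 0, x 2, x 4 = z`, `x 6, x 8, x 10 = w`, the other coordinates `0`: `AA = h z - t h w = 0`,
`BB = 0`. Otherwise `F = L(i)` (for instance `Pool.Agent.Lib.QCFT.exists_quad (-1)`, which gives a
quadratic extension `F` and `θ` with `θ² = -1`; every element is `a + b θ` with `a b : L` unique) is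
totally complex (`θ ^ 2 = -1` excludes real places), apply `isotropic` over `F` with `s = t`, write
`z j = x (2j) + x (2j+1) θ`, `w j = x (6+2j) + x (7+2j) θ`; then `h z - t h w = AA + 2 BB θ`.
-/

set_option autoImplicit false

universe u

namespace Pool.Agent.Lib.MP_fa3e6c_al

open NumberField

private theorem totallyComplex {F : Type u} [Field F] [NumberField F] (j : F) (hj : j ^ 2 = -1) :
    IsTotallyComplex F := by
  refine ⟨fun v => ?_⟩
  rw [← InfinitePlace.not_isReal_iff_isComplex]
  intro hv
  have h := congrArg (InfinitePlace.embedding_of_isReal hv) hj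
  rw [map_pow, map_neg, map_one] at h
  nlinarith [sq_nonneg (InfinitePlace.embedding_of_isReal hv j)]

private theorem decomp {L F : Type u} [Field L] [Field F] [Algebra L F]
    [Algebra.IsQuadraticExtension L F] (hns : ¬ IsSquare (-1 : L)) (θ : F) (hθ : θ ^ 2 = -1) :
    (∀ z : F, ∃ a b : L, z = algebraMap L F a + algebraMap L F b * θ) ∧
      (∀ a b : L, algebraMap L F a + algebraMap L F b * θ = 0 → a = 0 ∧ b = 0) := by
  have hind : ∀ a b : L, algebraMap L F a + algebraMap L F b * θ = 0 → a = 0 ∧ b = 0 := by
    intro a b h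
    by_cases hb : b = 0
    · subst hb
      simp only [map_zero, zero_mul, add_zero] at h
      exact ⟨(map_eq_zero _).mp h, rfl⟩
    · exfalso
      apply hns
      refine ⟨a / b, ?_⟩
      apply (algebraMap L F).injective
      have hb' : algebraMap L F b ≠ 0 := (map_ne_zero _).mpr hb
      have h1 : algebraMap L F a = -(algebraMap L F b * θ) := by linear_combination h
      rw [map_neg, map_one, map_mul, map_div₀, h1]
      field_simp
      rw [hθ]
  refine ⟨?_, hind⟩
  have hli : LinearIndependent L ![(1 : F), θ] := by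
    rw [LinearIndependent.pair_iff]
    intro s t h
    apply hind
    rw [Algebra.smul_def, Algebra.smul_def, mul_one] at h
    exact h
  have hspan := hli.span_eq_top_of_card_eq_finrank (by
    rw [Algebra.IsQuadraticExtension.finrank_eq_two (R := L) (S := F)]
    simp)
  intro z
  have hz : z ∈ Submodule.span L (Set.range ![(1 : F), θ]) := by
    rw [hspan]; trivial
  rw [Matrix.range_cons, Matrix.range_cons, Matrix.range_empty, Set.union_empty,
    Set.singleton_union, Submodule.mem_span_pair] at hz
  obtain ⟨a, b, h⟩ := hz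
  refine ⟨a, b, ?_⟩
  rw [← h, Algebra.smul_def, Algebra.smul_def, mul_one]

theorem pairs (L : Type u) [Field L] [NumberField L] (p u : ℕ) (hp8 : p % 8 = 1)
    (hu : u ≠ 0) (t : L) :
    ∃ x : ℕ → L, AA (p : L) (u : L) t x = 0 ∧ BB (p : L) (u : L) t x = 0 ∧ ∃ i < 12, x i ≠ 0 := by
  by_cases hsq : IsSquare (-1 : L)
  · obtain ⟨j, hj⟩ := hsq
    have hTC : IsTotallyComplex L := totallyComplex j (by rw [hj]; ring)
    obtain ⟨z, w, hne, hzw⟩ := isotropic L p u hp8 hu t
    refine ⟨fun n => match n with
      | 0 => z 0 | 2 => z 1 | 4 => z 2 | 6 => w 0 | 8 => w 1 | 10 => w 2 | _ => 0, ?_, ?_, ?_⟩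
    · simp only [AA]
      simp only [hF] at hzw
      linear_combination hzw
    · simp only [BB]
      ring
    · rcases hne with h | h
      · obtain ⟨i, hi⟩ := Function.ne_iff.mp h
        fin_cases i
        · exact ⟨0, by norm_num, hi⟩
        · exact ⟨2, by norm_num, hi⟩
        · exact ⟨4, by norm_num, hi⟩
      · obtain ⟨i, hi⟩ := Function.ne_iff.mp h
        fin_cases i
        · exact ⟨6, by norm_num, hi⟩
        · exact ⟨8, by norm_num, hi⟩
        · exact ⟨10, by norm_num, hi⟩
  · obtain ⟨F, _, _, _, _, θ', hθ'⟩ :=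
      Pool.Agent.Lib.QCFT.exists_quad (k := L) (-1) (by simpa using hsq)
    set θ : F := (θ' : F) with hθdef
    have hθ : θ ^ 2 = -1 := by
      have h := congrArg Units.val hθ'
      simpa [Pool.Agent.Lib.QCFT.coe_bc] using h
    have hTC : IsTotallyComplex F := totallyComplex θ hθ
    obtain ⟨hdec, hind⟩ := decomp (L := L) hsq θ hθ
    obtain ⟨z, w, hne, hzw⟩ := isotropic F p u hp8 hu (algebraMap L F t)
    choose za zb hz using fun i => hdec (z i)
    choose wa wb hw using fun i => hdec (w i)
    let x : ℕ → L := fun n => match n with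
      | 0 => za 0 | 1 => zb 0 | 2 => za 1 | 3 => zb 1 | 4 => za 2 | 5 => zb 2
      | 6 => wa 0 | 7 => wb 0 | 8 => wa 1 | 9 => wb 1 | 10 => wa 2 | 11 => wb 2 | _ => 0
    have hkey : algebraMap L F (AA (p : L) (u : L) t x) +
        algebraMap L F (2 * BB (p : L) (u : L) t x) * θ = 0 := by
      simp only [hF] at hzw
      rw [hz 0, hz 1, hz 2, hw 0, hw 1, hw 2] at hzw
      simp only [AA, BB, x, map_sub, map_mul, map_pow, map_natCast, map_ofNat]
      linear_combination hzw - (algebraMap L F (zb 0) ^ 2 - (p : F) * algebraMap L F (zb 1) ^ 2 -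
        (u : F) * algebraMap L F (zb 2) ^ 2 - algebraMap L F t * (algebraMap L F (wb 0) ^ 2 -
        (p : F) * algebraMap L F (wb 1) ^ 2 - (u : F) * algebraMap L F (wb 2) ^ 2)) * hθ
    obtain ⟨hA, hB⟩ := hind _ _ hkey
    refine ⟨x, hA, ?_, ?_⟩
    · rcases mul_eq_zero.mp hB with h | h
      · exact absurd h two_ne_zero
      · exact h
    · by_contra hcon
      push Not at hcon
      have hx : ∀ i < 12, x i = 0 := hcon
      have e0 : za 0 = 0 := hx 0 (by norm_num)
      have e1 : zb 0 = 0 := hx 1 (by norm_num)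
      have e2 : za 1 = 0 := hx 2 (by norm_num)
      have e3 : zb 1 = 0 := hx 3 (by norm_num)
      have e4 : za 2 = 0 := hx 4 (by norm_num)
      have e5 : zb 2 = 0 := hx 5 (by norm_num)
      have e6 : wa 0 = 0 := hx 6 (by norm_num)
      have e7 : wb 0 = 0 := hx 7 (by norm_num)
      have e8 : wa 1 = 0 := hx 8 (by norm_num)
      have e9 : wb 1 = 0 := hx 9 (by norm_num)
      have e10 : wa 2 = 0 := hx 10 (by norm_num)
      have e11 : wb 2 = 0 := hx 11 (by norm_num)
      rcases hne with h | h
      · apply h
        funext i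
        fin_cases i
        · simp [hz 0, e0, e1]
        · simp [hz 1, e2, e3]
        · simp [hz 2, e4, e5]
      · apply h
        funext i
        fin_cases i
        · simp [hw 0, e6, e7]
        · simp [hw 1, e8, e9]
        · simp [hw 2, e10, e11]

end Pool.Agent.Lib.MP_fa3e6c_al
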