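import Mathlib
import Pool.Agent.Lib.MP_fa3e6c_al.Defs

/-!
# The initial algebra satisfies the identities and is a commutative ring
-/

set_option autoImplicit false

namespace Pool.Agent.Lib.MP_fa3e6c_al

variable {C : Type}

/-- constants in the initial algebra -/
def Init.cst (E : Set (Idt C)) (i : C) : Init E := Init.mk E (Tm.cst i)

lemma Tm.subst_subst {V W U : Type} (σ : V → Tm C W) (τ : W → Tm C U) (s : Tm C V) :
    (s.subst σ).subst τ = s.subst (fun x => (σ x).subst τ) := by
  induction s with
  | var x => rfl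
  | cst c => rfl
  | zero => rfl
  | one => rfl
  | add s t hs ht => simp only [Tm.subst, hs, ht]
  | mul s t hs ht => simp only [Tm.subst, hs, ht]
  | neg s hs => simp only [Tm.subst, hs]
  | inv s hs => simp only [Tm.subst, hs]

/-- evaluation in the initial algebra is substitution of representatives -/
lemma Init.eval_mk {V : Type} (E : Set (Idt C)) (σ : V → Tm C Empty) (s : Tm C V) :
    s.eval (Init.cst E) (fun x => Init.mk E (σ x)) = Init.mk E (s.subst σ) := by
  induction s with
  | var x => rfl
  | cst c => rfl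
  | zero => rfl
  | one => rfl
  | add s t hs ht => simp only [Tm.eval, Tm.subst, hs, ht]; rfl
  | mul s t hs ht => simp only [Tm.eval, Tm.subst, hs, ht]; rfl
  | neg s hs => simp only [Tm.eval, Tm.subst, hs]; rfl
  | inv s hs => simp only [Tm.eval, Tm.subst, hs]; rfl

/-- closed terms evaluate to their class -/
lemma Init.eval_closed (E : Set (Idt C)) (s : Tm C Empty) :
    s.eval (Init.cst E) (fun e => e.elim) = Init.mk E s := by
  have h1 : (fun e : Empty => (e.elim : Init E)) = fun x => Init.mk E ((fun e : Empty => (Tm.var e : Tm C Empty)) x) := by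
    funext e; exact e.elim
  rw [h1, Init.eval_mk]
  congr 1
  induction s with
  | var x => exact x.elim
  | cst c => rfl
  | zero => rfl
  | one => rfl
  | add s t hs ht => simp only [Tm.subst, hs, ht]
  | mul s t hs ht => simp only [Tm.subst, hs, ht]
  | neg s hs => simp only [Tm.subst, hs]
  | inv s hs => simp only [Tm.subst, hs]

/-- the initial algebra satisfies provable equations -/
lemma Init.sat_prv (E : Set (Idt C)) {s t : Tm C ℕ} (h : Prv E s t) (v : ℕ → Init E) :
    s.eval (Init.cst E) v = t.eval (Init.cst E) v := by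
  obtain ⟨σ, rfl⟩ : ∃ σ : ℕ → Tm C Empty, v = fun n => Init.mk E (σ n) := by
    choose σ hσ using fun n => Quotient.exists_rep (v n)
    exact ⟨σ, funext fun n => (hσ n).symm⟩
  rw [Init.eval_mk, Init.eval_mk]
  apply Quotient.sound
  have h1 := Prv.subst (fun n => (σ n).lift) h
  change Prv E (s.subst σ).lift (t.subst σ).lift
  have e : ∀ r : Tm C ℕ, (r.subst σ).lift = r.subst (fun n => (σ n).lift) := fun r => by
    rw [Tm.lift, Tm.subst_subst]
    rfl
  rw [e, e]
  exact h1

/-- the initial algebra satisfies the identities -/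
lemma Init.sat (E : Set (Idt C)) {s t : Tm C ℕ} (h : (s, t) ∈ E) (v : ℕ → Init E) :
    s.eval (Init.cst E) v = t.eval (Init.cst E) v := Init.sat_prv E (Prv.ax h) v

section ring

variable (E : Set (Idt C))

open Tm

/-- valuation with three prescribed values -/
def vv {A : Type} (a b c : A) : ℕ → A
  | 0 => a
  | 1 => b
  | _ => c

lemma Init.add_assoc' (a b c : Init (Md C ∪ E)) : a + b + c = a + (b + c) :=
  Init.sat (Md C ∪ E) (s := add (add (var 0) (var 1)) (var 2))
    (t := add (var 0) (add (var 1) (var 2))) (Or.inl (by simp [Md])) (vv a b c)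

lemma Init.add_comm' (a b : Init (Md C ∪ E)) : a + b = b + a :=
  Init.sat (Md C ∪ E) (s := add (var 0) (var 1)) (t := add (var 1) (var 0))
    (Or.inl (by simp [Md])) (vv a b b)

lemma Init.add_zero' (a : Init (Md C ∪ E)) : a + 0 = a :=
  Init.sat (Md C ∪ E) (s := add (var 0) zero) (t := var 0) (Or.inl (by simp [Md])) (vv a a a)

lemma Init.add_neg' (a : Init (Md C ∪ E)) : a + -a = 0 :=
  Init.sat (Md C ∪ E) (s := add (var 0) (neg (var 0))) (t := zero)
    (Or.inl (by simp [Md])) (vv a a a)

lemma Init.mul_assoc' (a b c : Init (Md C ∪ E)) : a * b * c = a * (b * c) :=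
  Init.sat (Md C ∪ E) (s := mul (mul (var 0) (var 1)) (var 2))
    (t := mul (var 0) (mul (var 1) (var 2))) (Or.inl (by simp [Md])) (vv a b c)

lemma Init.mul_comm' (a b : Init (Md C ∪ E)) : a * b = b * a :=
  Init.sat (Md C ∪ E) (s := mul (var 0) (var 1)) (t := mul (var 1) (var 0))
    (Or.inl (by simp [Md])) (vv a b b)

lemma Init.one_mul' (a : Init (Md C ∪ E)) : 1 * a = a :=
  Init.sat (Md C ∪ E) (s := mul one (var 0)) (t := var 0) (Or.inl (by simp [Md])) (vv a a a)

lemma Init.mul_add' (a b c : Init (Md C ∪ E)) : a * (b + c) = a * b + a * c :=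
  Init.sat (Md C ∪ E) (s := mul (var 0) (add (var 1) (var 2)))
    (t := add (mul (var 0) (var 1)) (mul (var 0) (var 2))) (Or.inl (by simp [Md])) (vv a b c)

lemma Init.inv_inv' (a : Init (Md C ∪ E)) : a⁻¹⁻¹ = a :=
  Init.sat (Md C ∪ E) (s := inv (inv (var 0))) (t := var 0) (Or.inl (by simp [Md])) (vv a a a)

lemma Init.mul_mul_inv' (a : Init (Md C ∪ E)) : a * (a * a⁻¹) = a :=
  Init.sat (Md C ∪ E) (s := mul (var 0) (mul (var 0) (inv (var 0)))) (t := var 0)
    (Or.inl (by simp [Md])) (vv a a a)

/-- the initial algebra as a commutative ring -/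
instance initCommRing : CommRing (Init (Md C ∪ E)) where
  add_assoc := Init.add_assoc' E
  zero_add a := by rw [Init.add_comm', Init.add_zero']
  add_zero := Init.add_zero' E
  add_comm := Init.add_comm' E
  left_distrib := Init.mul_add' E
  right_distrib a b c := by rw [Init.mul_comm', Init.mul_add', Init.mul_comm' E c a,
    Init.mul_comm' E c b]
  zero_mul a := by
    have h1 : a * 0 = a * 0 + a * 0 := by
      rw [← Init.mul_add', Init.add_zero']
    have h2 : a * 0 + a * 0 + -(a * 0) = 0 := by rw [← h1, Init.add_neg']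
    rw [Init.add_assoc', Init.add_neg', Init.add_zero'] at h2
    rw [Init.mul_comm', h2]
  mul_zero a := by
    have h1 : a * 0 = a * 0 + a * 0 := by
      rw [← Init.mul_add', Init.add_zero']
    have h2 : a * 0 + a * 0 + -(a * 0) = 0 := by rw [← h1, Init.add_neg']
    rw [Init.add_assoc', Init.add_neg', Init.add_zero'] at h2
    exact h2
  mul_assoc := Init.mul_assoc' E
  one_mul := Init.one_mul' E
  mul_one a := by rw [Init.mul_comm', Init.one_mul']
  neg_add_cancel a := by rw [Init.add_comm', Init.add_neg']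
  mul_comm := Init.mul_comm' E
  nsmul := nsmulRec
  zsmul := zsmulRec

end ring

end Pool.Agent.Lib.MP_fa3e6c_al
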