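import Mathlib
import Pool.Agent.Lib.MP_fa3e6c_al.SemI

/-!
# A criterion for finite presentations in terms of fields generated by constants
-/

set_option autoImplicit false

universe u

namespace Pool.Agent.Lib.MP_fa3e6c_al

variable {C : Type}

lemma Tm.eval_subst {V W : Type} {A : Type u} [Zero A] [One A] [Add A] [Mul A] [Neg A] [Inv A]
    (c : C → A) (v : W → A) (σ : V → Tm C W) (s : Tm C V) :
    (s.subst σ).eval c v = s.eval c (fun x => (σ x).eval c v) := by
  induction s with
  | var x => rfl
  | cst c => rfl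
  | zero => rfl
  | one => rfl
  | add s t hs ht => simp only [Tm.eval, Tm.subst, hs, ht]
  | mul s t hs ht => simp only [Tm.eval, Tm.subst, hs, ht]
  | neg s hs => simp only [Tm.eval, Tm.subst, hs]
  | inv s hs => simp only [Tm.eval, Tm.subst, hs]

lemma Tm.eval_lift {A : Type u} [Zero A] [One A] [Add A] [Mul A] [Neg A] [Inv A]
    (c : C → A) (v : ℕ → A) (s : Tm C Empty) :
    s.lift.eval c v = s.eval c (fun e => e.elim) := by
  rw [Tm.lift, Tm.eval_subst]
  congr 1
  funext e
  exact e.elim

/-- ring homomorphisms between fields commute with evaluation -/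
lemma Tm.map_eval {V : Type} {A : Type u} {B : Type*} [Field A] [Field B] (ρ : A →+* B)
    (c : C → A) (d : C → B) (hcd : ∀ i, ρ (c i) = d i) (v : V → A) (s : Tm C V) :
    ρ (s.eval c v) = s.eval d (fun x => ρ (v x)) := by
  induction s with
  | var x => rfl
  | cst i => exact hcd i
  | zero => exact map_zero ρ
  | one => exact map_one ρ
  | add s t hs ht => simp only [Tm.eval, map_add, hs, ht]
  | mul s t hs ht => simp only [Tm.eval, map_mul, hs, ht]
  | neg s hs => simp only [Tm.eval, map_neg, hs]
  | inv s hs => simp only [Tm.eval, map_inv₀, hs]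

/-- soundness of equational logic in zero-totalised fields -/
lemma sound {A : Type u} [Field A] {c : C → A} {E : Set (Idt C)} (hE : Sat E A c)
    {s t : Tm C ℕ} (h : Prv (Md C ∪ E) s t) : ∀ v : ℕ → A, s.eval c v = t.eval c v := by
  induction h with
  | @ax s t h =>
    intro v
    rcases h with h | h
    · simp only [Md, Set.mem_insert_iff, Set.mem_singleton_iff, Prod.mk.injEq] at h
      rcases h with h | h | h | h | h | h | h | h | h | h <;> obtain ⟨rfl, rfl⟩ := h <;>
        simp only [Tm.eval]
      · ring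
      · ring
      · ring
      · ring
      · ring
      · ring
      · ring
      · ring
      · exact inv_inv _
      · by_cases h0 : v 0 = 0
        · rw [h0]; ring
        · rw [mul_inv_cancel₀ h0, mul_one]
    · exact hE _ h v
  | refl s => intro v; rfl
  | symm _ ih => intro v; exact (ih v).symm
  | trans _ _ ih1 ih2 => intro v; exact (ih1 v).trans (ih2 v)
  | subst σ _ ih => intro v; rw [Tm.eval_subst, Tm.eval_subst, ih]
  | add _ _ ih1 ih2 => intro v; simp only [Tm.eval, ih1 v, ih2 v]
  | mul _ _ ih1 ih2 => intro v; simp only [Tm.eval, ih1 v, ih2 v]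
  | neg _ ih => intro v; simp only [Tm.eval, ih v]
  | inv _ ih => intro v; simp only [Tm.eval, ih v]

section quot

variable (E : Set (Idt C))

/-- `e = x x⁻¹` is idempotent with `x e = x` -/
lemma Init.exists_maximal {x : Init (Md C ∪ E)} (hx : x ≠ 0) :
    ∃ m : Ideal (Init (Md C ∪ E)), m.IsMaximal ∧ x ∉ m := by
  have h1 : x * (x * x⁻¹) = x := Init.mul_mul_inv' E x
  have h2 : x * x⁻¹ * (x * x⁻¹) = x * x⁻¹ := by
    calc x * x⁻¹ * (x * x⁻¹) = x * (x * x⁻¹) * x⁻¹ := by ring
      _ = x * x⁻¹ := by rw [h1]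
  have h3 : ¬ IsUnit (1 - x * x⁻¹) := by
    intro hu
    apply hx
    have h4 : (1 - x * x⁻¹) * (x * x⁻¹) = 0 := by rw [sub_mul, one_mul, h2, sub_self]
    have h5 : x * x⁻¹ = 0 := hu.mul_right_eq_zero.mp h4
    rw [← h1, h5, mul_zero]
  obtain ⟨m, hm, hmem⟩ := exists_max_ideal_of_mem_nonunits h3
  refine ⟨m, hm, fun hxm => ?_⟩
  have h4 : x * x⁻¹ ∈ m := m.mul_mem_right _ hxm
  apply hm.ne_top
  rw [Ideal.eq_top_iff_one]
  have h5 := m.add_mem hmem h4
  rwa [sub_add_cancel] at h5

lemma Init.inv_quot (m : Ideal (Init (Md C ∪ E))) [hm : m.IsMaximal] (x : Init (Md C ∪ E)) :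
    letI := Ideal.Quotient.field m
    Ideal.Quotient.mk m x⁻¹ = (Ideal.Quotient.mk m x)⁻¹ := by
  letI := Ideal.Quotient.field m
  by_cases h : Ideal.Quotient.mk m x = 0
  · rw [h, inv_zero, Ideal.Quotient.eq_zero_iff_mem]
    rw [Ideal.Quotient.eq_zero_iff_mem] at h
    have h1 := Init.mul_mul_inv' E x⁻¹
    rw [Init.inv_inv'] at h1
    rw [← h1]
    exact m.mul_mem_left _ (m.mul_mem_left _ h)
  · have h1 := congrArg (Ideal.Quotient.mk m) (Init.mul_mul_inv' E x)
    rw [map_mul, map_mul] at h1
    have h2 : Ideal.Quotient.mk m x * Ideal.Quotient.mk m x⁻¹ = 1 := by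
      have h3 : Ideal.Quotient.mk m x *
          (Ideal.Quotient.mk m x * Ideal.Quotient.mk m x⁻¹) = Ideal.Quotient.mk m x * 1 := by
        rw [h1, mul_one]
      exact mul_left_cancel₀ h h3
    exact eq_inv_of_mul_eq_one_right h2

lemma Init.eval_quot {V : Type} (m : Ideal (Init (Md C ∪ E))) [hm : m.IsMaximal]
    (v : V → Init (Md C ∪ E)) (s : Tm C V) :
    letI := Ideal.Quotient.field m
    s.eval (fun i => Ideal.Quotient.mk m (Init.cst (Md C ∪ E) i))
      (fun x => Ideal.Quotient.mk m (v x)) =
      Ideal.Quotient.mk m (s.eval (Init.cst (Md C ∪ E)) v) := by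
  letI := Ideal.Quotient.field m
  induction s with
  | var x => rfl
  | cst i => rfl
  | zero => exact (map_zero _).symm
  | one => exact (map_one _).symm
  | add s t hs ht => simp only [Tm.eval, hs, ht]; exact (map_add _ _ _).symm
  | mul s t hs ht => simp only [Tm.eval, hs, ht]; exact (map_mul _ _ _).symm
  | neg s hs => simp only [Tm.eval, hs]; exact (map_neg _ _).symm
  | inv s hs => simp only [Tm.eval, hs]; exact (Init.inv_quot E m _).symm

end quot

/-- Criterion: `(C, E)` presents `K_0` as soon as `K` is generated by its constants, satisfies `E`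
and maps to every field generated by constants and satisfying `E`. -/
theorem presentation_of_fields (E : Set (Idt C)) (K : Type u) [Field K] (c : C → K)
    (hgen : Gen K c) (hE : Sat E K c)
    (hiso : ∀ (L : Type) [Field L] (d : C → L), Gen L d → Sat E L d →
      ∃ ρ : K →+* L, ∀ i, ρ (c i) = d i) :
    IsPresentation K C E := by
  let f : Init (Md C ∪ E) → K := Quotient.lift (fun s : Tm C Empty => s.eval c (fun e => e.elim))
    (by
      intro s t h
      have h1 := sound hE h (fun _ => 0)
      rwa [Tm.eval_lift, Tm.eval_lift] at h1)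
  have hf : ∀ s : Tm C Empty, f (Init.mk _ s) = s.eval c (fun e => e.elim) := fun s => rfl
  have hsurj : Function.Surjective f := by
    intro x
    obtain ⟨s, hs⟩ := hgen x
    exact ⟨Init.mk _ s, hs⟩
  have hinj : Function.Injective f := by
    intro a b hab
    obtain ⟨s, rfl⟩ : ∃ s, a = Init.mk _ s := by
      obtain ⟨s, hs⟩ := Quotient.exists_rep a
      exact ⟨s, hs.symm⟩
    obtain ⟨t, rfl⟩ : ∃ t, b = Init.mk _ t := by
      obtain ⟨t, ht⟩ := Quotient.exists_rep b
      exact ⟨t, ht.symm⟩
    by_contra hne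
    obtain ⟨m, hm, hxm⟩ := Init.exists_maximal E (sub_ne_zero.mpr hne)
    letI := Ideal.Quotient.field m
    have hev : ∀ r : Tm C Empty,
        r.eval (fun i => Ideal.Quotient.mk m (Init.cst (Md C ∪ E) i)) (fun e => e.elim) =
        Ideal.Quotient.mk m (Init.mk (Md C ∪ E) r) := by
      intro r
      rw [← Init.eval_closed]
      have h1 := Init.eval_quot E m (V := Empty) (fun e => e.elim) r
      rw [← h1]
      congr 1
      funext e
      exact e.elim
    obtain ⟨ρ, hρ⟩ := hiso (Init (Md C ∪ E) ⧸ m)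
      (fun i => Ideal.Quotient.mk m (Init.cst (Md C ∪ E) i))
      (by
        intro x
        obtain ⟨y, rfl⟩ := Ideal.Quotient.mk_surjective x
        obtain ⟨r, rfl⟩ := Quotient.exists_rep y
        exact ⟨r, hev r⟩)
      (by
        intro e he v
        obtain ⟨w, rfl⟩ : ∃ w : ℕ → Init (Md C ∪ E), v = fun n => Ideal.Quotient.mk m (w n) := by
          choose w hw using fun n => Ideal.Quotient.mk_surjective (v n)
          exact ⟨w, funext fun n => (hw n).symm⟩
        rw [Init.eval_quot E m w, Init.eval_quot E m w,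
          Init.sat (Md C ∪ E) (s := e.1) (t := e.2) (Or.inr he) w])
    apply hxm
    rw [← Ideal.Quotient.eq, ← hev, ← hev]
    have h2 : ∀ r : Tm C Empty, ρ (r.eval c (fun e => e.elim)) =
        r.eval (fun i => Ideal.Quotient.mk m (Init.cst (Md C ∪ E) i)) (fun e => e.elim) := by
      intro r
      rw [Tm.map_eval ρ c _ hρ]
      congr 1
      funext e
      exact e.elim
    rw [← h2, ← h2]
    rw [hf, hf] at hab
    rw [hab]
  refine ⟨Equiv.ofBijective f ⟨hinj, hsurj⟩, rfl, rfl, ?_, ?_, ?_, ?_⟩
  · intro a b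
    obtain ⟨s, rfl⟩ := Quotient.exists_rep a
    obtain ⟨t, rfl⟩ := Quotient.exists_rep b
    rfl
  · intro a b
    obtain ⟨s, rfl⟩ := Quotient.exists_rep a
    obtain ⟨t, rfl⟩ := Quotient.exists_rep b
    rfl
  · intro a
    obtain ⟨s, rfl⟩ := Quotient.exists_rep a
    rfl
  · intro a
    obtain ⟨s, rfl⟩ := Quotient.exists_rep a
    rfl

end Pool.Agent.Lib.MP_fa3e6c_al
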