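import Mathlib

/-!
# Generators and relations

Proof. `K` is algebraic over `ℚ(t)` (trdeg 1). For each `c₀ i` there is a nonzero `D_i ∈ ℚ[T]` with
`D_i(t) c₀ i` integral over `ℚ[t]` (`IsAlgebraic.exists_integral_multiple`). Take
`c = (t, D_i(t) c₀ i)`; it generates `K`. Let `A = image of ev : MvPolynomial _ ℚ → K` (integral
over `ℚ[t]`), `J = ker ev`, finitely generated (Noetherian); multiply the generators by common
denominators to get `G ⊂ ℤ[X]`. If `d` satisfies `G` then `J` is killed by `aeval d`, so there is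
`f : A → L` over `ℚ` with `f (c i) = d i`. If `d 0` is algebraic: `c i` is integral over `ℚ[t]`,
so `d i = f (c i)` is integral over `ℚ[d 0]`, hence algebraic over `ℚ`. If `d 0` is transcendental:
`ker f` meets `ℚ[t]` in `0`, so it is `0` (`Ideal.eq_bot_of_comap_eq_bot` type lemma: `A` is an
integral domain integral over `ℚ[t]`), and `f` extends to `K = Frac A` (`IsFractionRing.lift` /
`IntermediateField` version `IsFractionRing (Algebra.adjoin ℚ S) (IntermediateField.adjoin ℚ S)`).
-/

set_option autoImplicit false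

universe u

namespace Pool.Agent.Lib.MP_fa3e6c_al

/-- Every element of `K` is algebraic over `ℚ[t]`. -/
private theorem alg_adjoin (K : Type u) [Field K] [CharZero K] (htr : Algebra.trdeg ℚ K = 1)
    (t : K) (ht : Transcendental ℚ t) (x : K) :
    IsAlgebraic (Algebra.adjoin ℚ ({t} : Set K)) x := by
  have hind : AlgebraicIndependent ℚ (fun _ : PUnit.{u+1} => t) :=
    algebraicIndependent_unique_type_iff.2 ht
  have hB := hind.isTranscendenceBasis_of_trdeg_le_of_finite (by rw [htr]; simp)
  have h1 := hB.isAlgebraic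
  have h2 := h1.isAlgebraic x
  rwa [Set.range_const] at h2

/-- Clearing denominators. -/
private theorem clear_den {σ : Type} (p : MvPolynomial σ ℚ) :
    ∃ (N : ℤ) (q : MvPolynomial σ ℤ), N ≠ 0 ∧
      MvPolynomial.map (algebraMap ℤ ℚ) q = MvPolynomial.C (N : ℚ) * p := by
  induction p using MvPolynomial.induction_on with
  | C a =>
    refine ⟨a.den, MvPolynomial.C a.num, by exact_mod_cast a.den_ne_zero, ?_⟩
    rw [MvPolynomial.map_C, ← MvPolynomial.C_mul]
    congr 1
    have := Rat.mul_den_eq_num a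
    rw [mul_comm] at this
    simp
  | add p q hp hq =>
    obtain ⟨N, q₁, hN, h1⟩ := hp
    obtain ⟨M, q₂, hM, h2⟩ := hq
    refine ⟨N * M, MvPolynomial.C M * q₁ + MvPolynomial.C N * q₂, mul_ne_zero hN hM, ?_⟩
    rw [map_add, map_mul, map_mul, h1, h2, MvPolynomial.map_C, MvPolynomial.map_C]
    push_cast
    rw [MvPolynomial.C_mul]
    simp only [algebraMap_int_eq, eq_intCast, map_intCast]
    ring
  | mul_X p i hp =>
    obtain ⟨N, q₁, hN, h1⟩ := hp
    refine ⟨N, q₁ * MvPolynomial.X i, hN, ?_⟩
    rw [map_mul, h1, MvPolynomial.map_X, mul_assoc]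

/-- Integral over a ring all whose elements are integral over `ℚ`. -/
private theorem int_of_int {R L : Type*} [CommRing R] [Field L] [CharZero L] (φ : R →+* L)
    (hφ : ∀ r, IsIntegral ℚ (φ r)) (x : L) (hx : φ.IsIntegralElem x) : IsIntegral ℚ x := by
  obtain ⟨p, hp, hpx⟩ := hx
  let φ' : R →+* integralClosure ℚ L := φ.codRestrict (integralClosure ℚ L) (fun r => hφ r)
  have hS : IsIntegral (integralClosure ℚ L) x := by
    refine ⟨p.map φ', hp.map _, ?_⟩
    rw [Polynomial.eval₂_map]
    exact hpx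
  exact isIntegral_trans x hS

/-- Generators `c` of `K` with `c 0 = t`, and finitely many integral relations which force: in any
field of characteristic zero satisfying them, either everything is algebraic over `ℚ`, or there is
an embedding of `K`. -/
theorem exists_rel (K : Type u) [Field K] [CharZero K] {n : ℕ} (c₀ : Fin n → K)
    (hc₀ : IntermediateField.adjoin ℚ (Set.range c₀) = ⊤) (htr : Algebra.trdeg ℚ K = 1)
    (t : K) (ht : Transcendental ℚ t) :
    ∃ (m : ℕ) (c : Fin (m + 1) → K) (G : Finset (MvPolynomial (Fin (m + 1)) ℤ)), c 0 = t ∧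
      IntermediateField.adjoin ℚ (Set.range c) = ⊤ ∧ (∀ g ∈ G, MvPolynomial.aeval c g = 0) ∧
      ∀ (L : Type) [Field L] [CharZero L] (d : Fin (m + 1) → L),
        (∀ g ∈ G, MvPolynomial.aeval d g = 0) →
        (IsAlgebraic ℚ (d 0) → ∀ i, IsAlgebraic ℚ (d i)) ∧
        (Transcendental ℚ (d 0) → ∃ ρ : K →+* L, ∀ i, ρ (c i) = d i) := by
  classical
  have hmul : ∀ i, ∃ y : Algebra.adjoin ℚ ({t} : Set K), y ≠ 0 ∧
      IsIntegral (Algebra.adjoin ℚ ({t} : Set K)) (y • c₀ i) := fun i =>
    (alg_adjoin K htr t ht (c₀ i)).exists_integral_multiple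
  choose y hy0 hyi using hmul
  set c : Fin (n + 1) → K := Fin.cons t (fun i => (y i : K) * c₀ i) with hc
  have hct : c 0 = t := by simp [hc]
  have hcs : ∀ i : Fin n, c i.succ = (y i : K) * c₀ i := fun i => by simp [hc]
  -- integrality of the generators
  have hcint : ∀ i, IsIntegral (Algebra.adjoin ℚ ({t} : Set K)) (c i) := by
    intro i
    refine Fin.cases ?_ ?_ i
    · rw [hct]
      have : (t : K) = algebraMap (Algebra.adjoin ℚ ({t} : Set K)) K
          ⟨t, Algebra.subset_adjoin rfl⟩ := rfl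
      rw [this]
      exact isIntegral_algebraMap
    · intro j
      rw [hcs]
      exact hyi j
  -- generation
  have hgen : IntermediateField.adjoin ℚ (Set.range c) = ⊤ := by
    rw [eq_top_iff, ← hc₀, IntermediateField.adjoin_le_iff]
    rintro _ ⟨i, rfl⟩
    have ht' : t ∈ IntermediateField.adjoin ℚ (Set.range c) :=
      IntermediateField.subset_adjoin _ _ ⟨0, hct⟩
    have hR : Algebra.adjoin ℚ ({t} : Set K) ≤
        (IntermediateField.adjoin ℚ (Set.range c)).toSubalgebra := by
      rw [Algebra.adjoin_le_iff]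
      rintro _ rfl
      exact ht'
    have hyK : (y i : K) ∈ IntermediateField.adjoin ℚ (Set.range c) := hR (y i).2
    have hci : c i.succ ∈ IntermediateField.adjoin ℚ (Set.range c) :=
      IntermediateField.subset_adjoin _ _ ⟨i.succ, rfl⟩
    have hyne : (y i : K) ≠ 0 := by
      intro h
      exact hy0 i (Subtype.ext h)
    have : c₀ i = c i.succ / (y i : K) := by
      rw [hcs, mul_comm, mul_div_assoc, div_self hyne, mul_one]
    rw [this]
    exact div_mem hci hyK
  -- the kernel
  have hJ : (RingHom.ker (MvPolynomial.aeval c : MvPolynomial (Fin (n + 1)) ℚ →ₐ[ℚ] K)).FG :=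
    IsNoetherian.noetherian _
  obtain ⟨S, hS⟩ := hJ
  choose N q hN hq using fun p : MvPolynomial (Fin (n + 1)) ℚ => clear_den p
  have haev : ∀ {L : Type u} [Field L] [CharZero L] (d : Fin (n + 1) → L)
      (p : MvPolynomial (Fin (n + 1)) ℚ),
      MvPolynomial.aeval d (q p) = (N p : L) * MvPolynomial.aeval d p := by
    intro L _ _ d p
    rw [← MvPolynomial.aeval_map_algebraMap ℚ d (q p), hq p, map_mul]
    simp
  have haev' : ∀ {L : Type} [Field L] [CharZero L] (d : Fin (n + 1) → L)
      (p : MvPolynomial (Fin (n + 1)) ℚ),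
      MvPolynomial.aeval d (q p) = (N p : L) * MvPolynomial.aeval d p := by
    intro L _ _ d p
    rw [← MvPolynomial.aeval_map_algebraMap ℚ d (q p), hq p, map_mul]
    simp
  refine ⟨n, c, S.image q, hct, hgen, ?_, ?_⟩
  · intro g hg
    obtain ⟨s, hs, rfl⟩ := Finset.mem_image.1 hg
    rw [haev]
    have : s ∈ RingHom.ker (MvPolynomial.aeval c : MvPolynomial (Fin (n + 1)) ℚ →ₐ[ℚ] K) := by
      rw [← hS]
      exact Ideal.subset_span hs
    rw [RingHom.mem_ker.1 this, mul_zero]
  intro L _ _ d hd
  have hle : RingHom.ker (MvPolynomial.aeval c : MvPolynomial (Fin (n + 1)) ℚ →ₐ[ℚ] K) ≤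
      RingHom.ker (MvPolynomial.aeval d : MvPolynomial (Fin (n + 1)) ℚ →ₐ[ℚ] L) := by
    rw [← hS]
    refine Ideal.span_le.2 ?_
    intro s hs
    have h1 := hd (q s) (Finset.mem_image_of_mem _ hs)
    rw [haev'] at h1
    have h2 : ((N s : ℤ) : L) ≠ 0 := by exact_mod_cast hN s
    exact RingHom.mem_ker.2 ((mul_eq_zero.1 h1).resolve_left h2)
  set A : Subalgebra ℚ K :=
    (MvPolynomial.aeval c : MvPolynomial (Fin (n + 1)) ℚ →ₐ[ℚ] K).range with hA
  have hAadj : A = Algebra.adjoin ℚ (Set.range c) := (Algebra.adjoin_range_eq_range_aeval ℚ c).symm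
  let e : MvPolynomial (Fin (n + 1)) ℚ →ₐ[ℚ] A :=
    (MvPolynomial.aeval c : MvPolynomial (Fin (n + 1)) ℚ →ₐ[ℚ] K).rangeRestrict
  have he : Function.Surjective e := AlgHom.rangeRestrict_surjective _
  have hker : RingHom.ker e.toRingHom ≤
      RingHom.ker (MvPolynomial.aeval d : MvPolynomial (Fin (n + 1)) ℚ →ₐ[ℚ] L).toRingHom := by
    intro p hp
    refine hle ?_
    have := RingHom.mem_ker.1 hp
    exact RingHom.mem_ker.2 (congrArg Subtype.val this)
  let f : A →ₐ[ℚ] L := AlgHom.liftOfSurjective e he (MvPolynomial.aeval d) hker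
  have hfe : ∀ p, f (e p) = MvPolynomial.aeval d p := fun p =>
    AlgHom.liftOfSurjective_apply e he _ hker p
  have hcA : ∀ i, c i ∈ A := fun i => ⟨MvPolynomial.X i, by simp⟩
  have hfc : ∀ i, f ⟨c i, hcA i⟩ = d i := by
    intro i
    have : (⟨c i, hcA i⟩ : A) = e (MvPolynomial.X i) := by
      apply Subtype.ext
      simp [e]
    rw [this, hfe]
    simp
  -- the subring `R`
  set R : Subalgebra ℚ K := Algebra.adjoin ℚ ({t} : Set K) with hR
  have hRA : R ≤ A := by
    rw [hR, Algebra.adjoin_le_iff]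
    rintro _ rfl
    have := hcA 0
    rwa [hct] at this
  let algRA : Algebra R A := (Subalgebra.inclusion hRA).toRingHom.toAlgebra
  have : IsScalarTower R A K := IsScalarTower.of_algebraMap_eq (fun x => rfl)
  have hRint : ∀ a : A, IsIntegral R a := by
    intro a
    have h1 : IsIntegral R (a : K) := by
      have hsub : Algebra.adjoin ℚ (Set.range c) ≤
          (integralClosure R K).restrictScalars ℚ := by
        rw [Algebra.adjoin_le_iff]
        rintro _ ⟨i, rfl⟩
        exact hcint i
      have h2 : (a : K) ∈ Algebra.adjoin ℚ (Set.range c) := by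
        rw [← hAadj]
        exact a.2
      exact hsub h2
    exact (isIntegral_algebraMap_iff (R := R) (A := A) (B := K)
      (Subtype.coe_injective)).1 h1
  have : Algebra.IsIntegral R A := ⟨hRint⟩
  have hfR : ∀ r : R, ∃ p : Polynomial ℚ, Polynomial.aeval t p = (r : K) ∧
      f (algebraMap R A r) = Polynomial.aeval (d 0) p := by
    intro r
    have h1 : (r : K) ∈ (Polynomial.aeval t : Polynomial ℚ →ₐ[ℚ] K).range := by
      rw [← Algebra.adjoin_singleton_eq_range_aeval]
      exact r.2
    obtain ⟨p, hp⟩ := h1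
    refine ⟨p, hp, ?_⟩
    have h2 : algebraMap R A r = Polynomial.aeval (⟨c 0, hcA 0⟩ : A) p := by
      apply Subtype.ext
      have h3 : ((Polynomial.aeval (⟨c 0, hcA 0⟩ : A) p : A) : K) =
          Polynomial.aeval (c 0) p := by
        have := Polynomial.aeval_algHom_apply A.val (⟨c 0, hcA 0⟩ : A) p
        exact this.symm
      rw [h3, hct]
      exact hp.symm
    rw [h2, ← Polynomial.aeval_algHom_apply, hfc]
  refine ⟨?_, ?_⟩
  · intro hd0 i
    have hd0' : IsIntegral ℚ (d 0) := hd0.isIntegral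
    obtain ⟨p, hp, hpx⟩ := hRint ⟨c i, hcA i⟩
    have h1 : ((f : A →+* L).comp (algebraMap R A)).IsIntegralElem (d i) := by
      refine ⟨p, hp, ?_⟩
      rw [← hfc i]
      have := congrArg f hpx
      rw [map_zero] at this
      rw [← this]
      exact (Polynomial.hom_eval₂ p (algebraMap R A) (f : A →+* L) _).symm
    refine (int_of_int _ ?_ _ h1).isAlgebraic
    intro r
    obtain ⟨p, -, hp⟩ := hfR r
    change IsIntegral ℚ (f (algebraMap R A r))
    rw [hp]
    exact IsIntegral.of_mem_of_fg (Algebra.adjoin ℚ {d 0}) hd0'.fg_adjoin_singleton _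
      (Polynomial.aeval_mem_adjoin_singleton ℚ (d 0))
  · intro hd0
    have hcomap : (RingHom.ker (f : A →+* L)).comap (algebraMap R A) = ⊥ := by
      rw [eq_bot_iff]
      intro r hr
      have hr' : f (algebraMap R A r) = 0 := RingHom.mem_ker.1 (Ideal.mem_comap.1 hr)
      obtain ⟨p, hp1, hp2⟩ := hfR r
      rw [hr'] at hp2
      have hp0 : p = 0 := by
        by_contra hne
        exact hd0 ⟨p, hne, hp2.symm⟩
      rw [hp0, map_zero] at hp1
      exact Ideal.mem_bot.2 (Subtype.ext hp1.symm)
    have hbot : RingHom.ker (f : A →+* L) = ⊥ := Ideal.eq_bot_of_comap_eq_bot hcomap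
    have hinj : Function.Injective (f : A →+* L) := (RingHom.injective_iff_ker_eq_bot _).2 hbot
    have : FaithfulSMul A K := (faithfulSMul_iff_algebraMap_injective A K).2
      Subtype.coe_injective
    have : IsFractionRing A K := by
      refine IsFractionRing.of_field A K (fun z => ?_)
      have hz : z ∈ IntermediateField.adjoin ℚ (Set.range c) := by rw [hgen]; trivial
      obtain ⟨r, hr, s, hs, hrs⟩ := IntermediateField.mem_adjoin_iff_div.1 hz
      rw [← hAadj] at hr hs
      exact ⟨⟨r, hr⟩, ⟨s, hs⟩, hrs⟩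
    refine ⟨IsFractionRing.lift hinj, fun i => ?_⟩
    have := IsFractionRing.lift_algebraMap (K := K) hinj ⟨c i, hcA i⟩
    rw [show (algebraMap A K) ⟨c i, hcA i⟩ = c i from rfl] at this
    rw [this]
    exact hfc i

end Pool.Agent.Lib.MP_fa3e6c_al
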