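import Mathlib
import Pool.Agent.Lib.MP_fa3e6c_al.PresF
import Pool.Agent.Lib.MP_fa3e6c_al.Enc
import Pool.Agent.Lib.MP_fa3e6c_al.PairL
import Pool.Agent.Lib.MP_fa3e6c_al.AnLs
import Pool.Agent.Lib.MP_fa3e6c_al.EmbA
import Pool.Agent.Lib.MP_fa3e6c_al.RelG
import Pool.Agent.Lib.MP_fa3e6c_al.GenL

/-!
# Finite presentations of fields of transcendence degree one
-/

set_option autoImplicit false

universe u

namespace Pool.Agent.Lib.MP_fa3e6c_al

theorem main (K : Type u) [Field K] [CharZero K] {n : ℕ} (c₀ : Fin n → K)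
    (hc₀ : IntermediateField.adjoin ℚ (Set.range c₀) = ⊤) (htr : Algebra.trdeg ℚ K = 1) :
    HasFinitePresentation K := by
  obtain ⟨t, p, hp, ι, ht, hp8, hι⟩ := exists_embed K c₀ hc₀ htr
  have hp2 : p ≠ 2 := by rintro rfl; omega
  obtain ⟨u, hu, husq⟩ := exists_u p hp.out hp2
  obtain ⟨m, c, G, hct, hc, hG, hL⟩ := exists_rel K c₀ hc₀ htr t ht
  obtain ⟨E, hEf, hE1, hE2⟩ := exists_E.{u} G p u
  obtain ⟨h1, h2⟩ := good_of_embed p u hp8 husq K t ι hι
  refine ⟨Fin (m + 1), E, inferInstance, hEf,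
    presentation_of_fields E K c (gen_of_adjoin K c hc) ((hE1 K c).mpr ⟨h1, hG, ?_⟩) ?_⟩
  · rw [hct]; exact h2
  · intro L _ d hd hsat
    have hgood := (hE2 L d).mp hsat
    have hch : CharZero L := charZero_of_good L p u hgood.sq
    obtain ⟨ha, hb⟩ := hL L d hgood.rel
    by_cases halg : IsAlgebraic ℚ (d 0)
    · exfalso
      have hnf : NumberField L := numberField_of_gen L d hd (ha halg)
      obtain ⟨x, hx1, hx2, i, hi, hxi⟩ := pairs L p u hp8 hu.ne_zero (d 0)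
      exact hxi (hgood.form x hx1 hx2 i hi)
    · exact hb halg

end Pool.Agent.Lib.MP_fa3e6c_al
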